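import Pool.Agent.Helper50_DP.Stmts

/-!
# Squad DP: statements of part D (steps)
-/

universe u

open MvPolynomial PGH PGL

namespace Pool.Agent.DP

/-- STP: a net step preserves good elements -/
def StpStmt : Prop :=
  ∃ (N₀ : ℕ) (Φ : ∀ N : ℕ, MvPolynomial (Fin N × Fin 3) ℤ), 3 ≤ N₀ ∧
    (∀ N, N₀ ≤ N → Φ N ≠ 0) ∧
    ∀ (k M : Type u) [Field k] [Field M] [Algebra k M] [IsAlgClosed k] [CharZero k]
      (F₀ : Set M) (F F' : Subfield M), NetStep N₀ Φ (algebraMap k M).fieldRange F F' →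
      (∀ a ∈ F, GoodEl2 k F₀ a) → ∀ a ∈ F', GoodEl2 k F₀ a

/-- HYP: the step given by lines in the plane -/
def HypStmt : Prop :=
  ∀ (N₀ : ℕ) (Φ : ∀ N : ℕ, MvPolynomial (Fin N × Fin 3) ℤ) (k M : Type u) [Field k] [Field M]
    [Algebra k M] [IsAlgClosed k] [CharZero k] (F F' : Subfield M) (N r : ℕ) (x : Fin 2 → M)
    (L : Fin N → Fin 3 → k) (t : M) (A : Fin N → Fin r → ℤ) (m : Fin r → ℕ) (b z : Fin r → M),
    F ≤ F' → N₀ ≤ N → AlgebraicIndependent k x → (∀ i, L i ≠ 0) →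
    aeval (fun p : Fin N × Fin 3 => L p.1 p.2) (Φ N) ≠ 0 → t ≠ 0 →
    (∀ j, b j ∈ F ∧ b j ≠ 0 ∧ z j ≠ 0 ∧
      ∏ i, ((algebraMap k M (L i 0) + algebraMap k M (L i 1) * x 0 +
        algebraMap k M (L i 2) * x 1) / t) ^ A i j = b j * z j ^ m j) →
    (∀ i (s : ℤ), ∃ j, ¬ (m j : ℤ) ∣ A i j + s * ∑ i, A i j) →
    (∀ a ∈ F', IsAlgebraic (Subfield.closure ((F : Set M) ∪ Set.range x)) a) →
    NetStep N₀ Φ (algebraMap k M).fieldRange F F'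

end Pool.Agent.DP
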