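import Pool.Agent.Helper50_DP.Stmts

/-!
# Squad DP: the genericity conditions
-/

universe u

open MvPolynomial PGH PGL

namespace Pool.Agent.DP

theorem map_det3 {A B : Type*} [CommRing A] [CommRing B] (f : A →+* B) (x y z : Fin 3 → A) :
    f (det3 x y z) = det3 (fun c => f (x c)) (fun c => f (y c)) (fun c => f (z c)) := by
  unfold det3
  rw [RingHom.map_det]
  congr 1
  ext i j
  fin_cases i <;> rfl

/-- a coefficient -/
theorem exists_coeff {N : ℕ} (P : Pol N) (hP : P ≠ 0) :
    ∃ F : MvPolynomial (Fin N × Fin 3) ℤ, F ≠ 0 ∧ ∀ (k : Type u) [Field k] (L : Fin N → Fin 3 → k),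
      aeval (fun p : Fin N × Fin 3 => L p.1 p.2) F ≠ 0 → spec L P ≠ 0 := by
  let e : Pol N →ₐ[ℤ] MvPolynomial (Fin 3 × Fin 3) (MvPolynomial (Fin N × Fin 3) ℤ) :=
    (sumAlgEquiv ℤ (Fin 3 × Fin 3) (Fin N × Fin 3)).toAlgHom.comp (rename Sum.swap)
  have he : Function.Injective e := by
    refine (sumAlgEquiv ℤ (Fin 3 × Fin 3) (Fin N × Fin 3)).injective.comp ?_
    exact rename_injective _ Sum.swap_leftInverse.injective
  have hQ : e P ≠ 0 := by
    rw [Ne, map_eq_zero_iff e he]; exact hP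
  obtain ⟨s, hs⟩ := ne_zero_iff.1 hQ
  refine ⟨coeff s (e P), hs, ?_⟩
  intro k _ L hL h0
  have key : ∀ P : Pol N, spec L P =
      map ((aeval (fun p : Fin N × Fin 3 => L p.1 p.2) :
        MvPolynomial (Fin N × Fin 3) ℤ →ₐ[ℤ] k) : MvPolynomial (Fin N × Fin 3) ℤ →+* k) (e P) := by
    intro P
    induction P using MvPolynomial.induction_on with
    | C a => simp
    | add p q hp hq => rw [map_add, hp, hq, map_add, map_add]
    | mul_X p i hp =>
      rw [map_mul, hp, map_mul, map_mul]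
      congr 1
      rcases i with i | i
      · have : e (X (Sum.inl i)) = C (X i) := by
          change sumAlgEquiv ℤ (Fin 3 × Fin 3) (Fin N × Fin 3) (rename Sum.swap (X (Sum.inl i))) = _
          rw [rename_X, Sum.swap_inl, sumAlgEquiv_X_inr]
        rw [this, map_C]
        simp [spec]
      · have : e (X (Sum.inr i)) = X i := by
          change sumAlgEquiv ℤ (Fin 3 × Fin 3) (Fin N × Fin 3) (rename Sum.swap (X (Sum.inr i))) = _
          rw [rename_X, Sum.swap_inr, sumAlgEquiv_X_inl]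
        rw [this, map_X]
        simp [spec]
  rw [key] at h0
  have := congrArg (coeff s) h0
  rw [coeff_map, coeff_zero] at this
  exact hL this

/-- three lines -/
noncomputable def detP {N : ℕ} (i j l : Fin N) : MvPolynomial (Fin N × Fin 3) ℤ :=
  det3 (fun c => X (i, c)) (fun c => X (j, c)) (fun c => X (l, c))

theorem aeval_detP {N : ℕ} {k : Type*} [Field k] (L : Fin N → Fin 3 → k) (i j l : Fin N) :
    aeval (fun p : Fin N × Fin 3 => L p.1 p.2) (detP i j l) = det3 (L i) (L j) (L l) := by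
  have := map_det3 ((aeval (fun p : Fin N × Fin 3 => L p.1 p.2) :
    MvPolynomial (Fin N × Fin 3) ℤ →ₐ[ℤ] k) : MvPolynomial (Fin N × Fin 3) ℤ →+* k)
    (fun c => X (i, c)) (fun c => X (j, c)) (fun c => X (l, c))
  simp only [RingHom.coe_coe, aeval_X] at this
  exact this

theorem detP_ne_zero {N : ℕ} {i j l : Fin N} (h1 : i ≠ j) (h2 : l ≠ i) (h3 : l ≠ j) :
    detP i j l ≠ 0 := by
  intro h
  have := aeval_detP (k := ℚ) (fun a c => if a = i then (if c = 0 then 1 else 0) else
    if a = j then (if c = 1 then 1 else 0) else if c = 2 then 1 else 0) i j l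
  rw [h, map_zero] at this
  simp [det3, Matrix.det_fin_three, h1.symm, h2, h3] at this

/-- the polynomial for the general position -/
noncomputable def genP (N : ℕ) : MvPolynomial (Fin N × Fin 3) ℤ := by
  classical
  exact ∏ t : Fin N × Fin N × Fin N,
    if t.1 ≠ t.2.1 ∧ t.2.2 ≠ t.1 ∧ t.2.2 ≠ t.2.1 then detP t.1 t.2.1 t.2.2 else 1

theorem genP_ne_zero (N : ℕ) : genP N ≠ 0 := by
  classical
  unfold genP
  rw [Finset.prod_ne_zero_iff]
  intro t _
  split_ifs with h
  · exact detP_ne_zero h.1 h.2.1 h.2.2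
  · exact one_ne_zero

theorem genPos_of {N : ℕ} {k : Type*} [Field k] (L : Fin N → Fin 3 → k)
    (h : aeval (fun p : Fin N × Fin 3 => L p.1 p.2) (genP N) ≠ 0) : GenPos L := by
  classical
  intro i j l h1 h2 h3 h0
  apply h
  unfold genP
  rw [map_prod]
  apply Finset.prod_eq_zero (Finset.mem_univ (i, j, l))
  rw [if_pos ⟨h1, h2, h3⟩, aeval_detP, h0]

end Pool.Agent.DP
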