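import Pool.Agent.Helper50_DP.Key
import Pool.Agent.Helper50_DP.Gen
import Pool.Agent.Helper11_PGL.StepG

/-!
# Squad DP: the data of a net step give good elements
-/

universe u

open MvPolynomial PGH PGL

namespace Pool.Agent.DP

section ev

variable {k M E : Type*} [Field k] [Field M] [Algebra k M] [Field E] [Algebra k E]
  {R : Subalgebra k M} (φ : R →ₐ[k] E)

theorem ev_inv' {a : M} (ha : a ∈ R) (ha' : a⁻¹ ∈ R) : ev φ a⁻¹ = (ev φ a)⁻¹ := by
  by_cases h0 : a = 0
  · rw [h0, inv_zero, ev_zero, inv_zero]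
  · have h1 := ev_mul φ ha' ha
    rw [inv_mul_cancel₀ h0, ev_one] at h1
    exact eq_inv_of_mul_eq_one_left h1.symm

theorem ev_zpow' {a : M} (ha : a ∈ R) (ha' : a⁻¹ ∈ R) (n : ℤ) :
    a ^ n ∈ R ∧ ev φ (a ^ n) = ev φ a ^ n := by
  rcases n with n | n
  · simp only [Int.ofNat_eq_natCast, zpow_natCast]
    exact ⟨pow_mem ha n, ev_pow φ ha n⟩
  · rw [zpow_negSucc, zpow_negSucc, ← inv_pow, ← inv_pow]
    exact ⟨pow_mem ha' _, by rw [ev_pow φ ha', ev_inv' φ ha ha']⟩

theorem ev_prod' {ι : Type*} (s : Finset ι) (f : ι → M) (h : ∀ i ∈ s, f i ∈ R) :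
    ∏ i ∈ s, f i ∈ R ∧ ev φ (∏ i ∈ s, f i) = ∏ i ∈ s, ev φ (f i) := by
  classical
  induction s using Finset.induction_on with
  | empty => rw [Finset.prod_empty, Finset.prod_empty]; exact ⟨one_mem _, ev_one φ⟩
  | insert a s ha ih =>
    have h1 := ih (fun i hi => h i (Finset.mem_insert_of_mem hi))
    have h2 := h a (Finset.mem_insert_self _ _)
    rw [Finset.prod_insert ha, Finset.prod_insert ha]
    exact ⟨mul_mem h2 h1.1, by rw [ev_mul φ h2 h1.1, h1.2]⟩

theorem ev_aeval {V : Type*} [Field V] [Algebra k V] [Algebra V M] [IsScalarTower k V M]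
    (y : Fin 3 → V) (hy : ∀ j, algebraMap V M (y j) ∈ R) (A : MvPolynomial (Fin 3) k) :
    ev φ (algebraMap V M (aeval y A)) = aeval (fun j => ev φ (algebraMap V M (y j))) A := by
  let y' : Fin 3 → R := fun j => ⟨algebraMap V M (y j), hy j⟩
  have h1 : ((aeval y' A : R) : M) = algebraMap V M (aeval y A) := by
    have h2 : R.val (aeval y' A) = aeval (fun j => algebraMap V M (y j)) A := by
      rw [← AlgHom.comp_apply, comp_aeval]
      rfl
    have h3 : (IsScalarTower.toAlgHom k V M) (aeval y A) =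
        aeval (fun j => algebraMap V M (y j)) A := by
      rw [← AlgHom.comp_apply, comp_aeval]
      rfl
    exact h2.trans h3.symm
  rw [← h1, ev_coe, ← AlgHom.comp_apply, comp_aeval]
  congr 1
  ext j
  rw [aeval_X, aeval_X]
  exact (ev_mem φ (hy j)).symm

end ev

section places

variable {k E : Type u} [Field k] [IsAlgClosed k] [CharZero k] [Field E] [Algebra k E] [FF k E]

theorem ord_prod' (P : Place k E) {ι : Type*} (s : Finset ι) (f : ι → E) (h : ∀ i ∈ s, f i ≠ 0) :
    P.ord (∏ i ∈ s, f i) = ∑ i ∈ s, P.ord (f i) := by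
  classical
  induction s using Finset.induction_on with
  | empty => rw [Finset.prod_empty, Finset.sum_empty, Place.ord_one]
  | insert a s ha ih =>
    have h2 := h a (Finset.mem_insert_self _ _)
    rw [Finset.prod_insert ha, Finset.sum_insert ha, P.ord_mul h2
      (Finset.prod_ne_zero_iff.2 fun i hi => h i (Finset.mem_insert_of_mem hi)),
      ih (fun i hi => h i (Finset.mem_insert_of_mem hi))]

/-- the number of zeros and poles -/
theorem card_supp_le (w : E) : (((finite_support (L := k) w).toFinset.card : ℕ) : ℤ) ≤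
    2 * (ht k w : ℤ) := by
  classical
  set s := (finite_support (L := k) w).toFinset with hs
  have h1 : ∀ P ∉ s, P.ord w = 0 := by
    intro P hP
    by_contra h
    exact hP ((finite_support (L := k) w).mem_toFinset.2 h)
  have h2 := sum_poles_eq w s h1
  have h3 := sum_ord_eq_zero w s h1
  have h4 : ∀ P ∈ s, (1 : ℤ) ≤ 2 * max 0 (-P.ord w) + P.ord w := by
    intro P hP
    have : P.ord w ≠ 0 := (finite_support (L := k) w).mem_toFinset.1 hP
    omega
  calc (s.card : ℤ) = ∑ P ∈ s, 1 := by simp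
    _ ≤ ∑ P ∈ s, (2 * max 0 (-P.ord w) + P.ord w) := Finset.sum_le_sum h4
    _ = 2 * (ht k w : ℤ) := by
      rw [Finset.sum_add_distrib, ← Finset.mul_sum, h2, h3, add_zero]

theorem LocMin.sum {n : ℕ} {y : Fin (n + 1) → E} {α : Place k E → ℤ} {s₀ s : Finset (Place k E)}
    (h : LocMin y α s₀) (hs : s₀ ⊆ s) : ∑ v ∈ s, α v = ∑ v ∈ s₀, α v := by
  symm
  exact Finset.sum_subset hs fun v _ hv => h.supp v hv

/-- the height of a ratio of coordinates -/
theorem ht_div_le {n : ℕ} {y : Fin (n + 1) → E} {α : Place k E → ℤ} {s₀ : Finset (Place k E)}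
    (h : LocMin y α s₀) (i j : Fin (n + 1)) (hi : y i ≠ 0) (hj : y j ≠ 0) :
    (ht k (y i / y j) : ℤ) ≤ -∑ v ∈ s₀, α v := by
  classical
  set s := s₀ ∪ ((finite_support (L := k) (y i)).toFinset ∪
    (finite_support (L := k) (y j)).toFinset) with hs
  have h1 : ∀ P ∉ s, P.ord (y i) = 0 ∧ P.ord (y j) = 0 := by
    intro P hP
    constructor
    · by_contra hne
      exact hP (Finset.mem_union_right _ (Finset.mem_union_left _
        ((finite_support (L := k) (y i)).mem_toFinset.2 hne)))
    · by_contra hne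
      exact hP (Finset.mem_union_right _ (Finset.mem_union_right _
        ((finite_support (L := k) (y j)).mem_toFinset.2 hne)))
  rw [← sum_poles_eq (y i / y j) s (fun P hP => by
    rw [P.ord_div hi hj, (h1 P hP).1, (h1 P hP).2, sub_zero]),
    ← h.sum (Finset.subset_union_left : s₀ ⊆ s)]
  have h3 := sum_ord_eq_zero (y j) s (fun P hP => (h1 P hP).2)
  have h4 : ∑ P ∈ s, max 0 (-P.ord (y i / y j)) ≤ ∑ P ∈ s, (P.ord (y j) - α P) := by
    apply Finset.sum_le_sum
    intro P _
    have h5 := (P.ge_iff hi).1 (h.ge P i)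
    have h6 := (P.ge_iff hj).1 (h.ge P j)
    rw [P.ord_div hi hj]
    omega
  rw [Finset.sum_sub_distrib, h3, zero_sub] at h4
  exact h4

end places

end Pool.Agent.DP
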