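import Pool.Agent.Helper50_DP.Key2

/-!
# Squad DP: the data of a net step give good elements
-/

universe u

open MvPolynomial PGH PGL

namespace Pool.Agent.DP

theorem lin_ne_of_norel {k V : Type*} [Field k] [Field V] [Algebra k V] {y : Fin 3 → V}
    (hind : ∀ (d : ℕ) (p : MvPolynomial (Fin 3) k), p.IsHomogeneous d → aeval y p = 0 → p = 0)
    (c : Fin 3 → k) (hc : c ≠ 0) : lin c y ≠ 0 := by
  intro h0
  apply hc
  have h1 : (∑ l, C (c l) * X l : MvPolynomial (Fin 3) k) = 0 := by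
    apply hind 1
    · exact IsHomogeneous.sum _ _ _ fun l _ => by
        simpa using (isHomogeneous_C (Fin 3) (c l)).mul (isHomogeneous_X k l)
    · rw [map_sum, ← h0]
      unfold lin
      exact Finset.sum_congr rfl fun l _ => by rw [map_mul, aeval_C, aeval_X]
  funext l
  have h2 := congrArg (aeval (Pi.single l (1 : k))) h1
  rw [map_sum, map_zero] at h2
  simpa [Pi.single_apply] using h2

theorem genPos_ne {k : Type*} [Field k] {N : ℕ} {L : Fin N → Fin 3 → k} (hL : GenPos L)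
    (hN : 3 ≤ N) (i : Fin N) : L i ≠ 0 := by
  intro h0
  obtain ⟨j, hj⟩ : ∃ j : Fin N, j ≠ i := by
    by_cases h : i = ⟨0, by omega⟩
    · exact ⟨⟨1, by omega⟩, by rw [h]; intro h'; simpa using congrArg Fin.val h'⟩
    · exact ⟨⟨0, by omega⟩, fun h' => h h'.symm⟩
  obtain ⟨l, hl⟩ : ∃ l : Fin N, l ≠ i ∧ l ≠ j := by
    by_contra hcon
    push Not at hcon
    have h1 : (Finset.univ : Finset (Fin N)) ⊆ {i, j} := by
      intro l _
      by_cases h : l = i
      · simp [h]
      · simp [hcon l h]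
    have h2 := Finset.card_le_card h1
    rw [Finset.card_univ, Fintype.card_fin] at h2
    have h3 : ({i, j} : Finset (Fin N)).card ≤ 2 := Finset.card_le_two
    omega
  apply hL i j l hj.symm hl.1 hl.2
  simp [det3, Matrix.det_fin_three, h0]

theorem genPos_ind {k : Type*} [Field k] {N : ℕ} {L : Fin N → Fin 3 → k} (hL : GenPos L)
    (s : Finset (Fin N)) (hs : s.card = 2 + 1) : LinearIndependent k (fun i : s => L i) := by
  classical
  obtain ⟨a, b, c, hab, hac, hbc, rfl⟩ := Finset.card_eq_three.1 hs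
  have h1 : LinearIndependent k ![L a, L b, L c] := by
    have h2 := hL a b c hab hac.symm hbc.symm
    exact Matrix.linearIndependent_rows_of_det_ne_zero h2
  have h2 := h1.comp (fun i : ({a, b, c} : Finset (Fin N)) =>
    if (i : Fin N) = a then (0 : Fin 3) else if (i : Fin N) = b then 1 else 2) (by
      rintro ⟨p, hp⟩ ⟨q, hq⟩ hpq
      simp only [Finset.mem_insert, Finset.mem_singleton] at hp hq
      apply Subtype.ext
      simp only at hpq ⊢
      have h4 := hab.symm
      have h5 := hac.symm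
      have h6 := hbc.symm
      rcases hp with rfl | rfl | rfl <;> rcases hq with rfl | rfl | rfl <;>
        simp_all)
  have h3 : (fun i : ({a, b, c} : Finset (Fin N)) => L i) = ![L a, L b, L c] ∘
      (fun i : ({a, b, c} : Finset (Fin N)) =>
    if (i : Fin N) = a then (0 : Fin 3) else if (i : Fin N) = b then 1 else 2) := by
    funext ⟨p, hp⟩
    simp only [Finset.mem_insert, Finset.mem_singleton] at hp
    rcases hp with rfl | rfl | rfl
    · simp
    · simp [hab.symm]
    · simp [hac.symm, hbc.symm]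
  rw [h3]
  exact h2

theorem lin_single {k V : Type*} [Field k] [Field V] [Algebra k V] (y : Fin 3 → V) (j : Fin 3) :
    lin (Pi.single j (1 : k)) y = y j := by
  unfold lin
  rw [Finset.sum_eq_single j]
  · simp
  · intro l _ hlj
    simp [hlj]
  · intro h; exact absurd (Finset.mem_univ _) h

/-- DPG -/
theorem dpg (hCLT : CltStmt.{u}) (hCLA : ClaStmt.{u}) (hVAN : VanStmt.{u})
    (hVER : VerStmt.{u}) (hEXC : ExcStmt.{u}) (hHGT : HgtStmt.{u}) (hLIN : LinStmt.{u})
    (hLNS : LnsStmt.{u}) (hWRO : WroStmt.{u}) (hKALL : KallStmt.{u}) (hEXI : ExiStmt.{u})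
    (hD : DRatStmt.{u}) : DpgStmt.{u} := by
  classical
  obtain ⟨N₁, hK⟩ := hKALL 2 1000
  obtain ⟨N₂, hE⟩ := hEXI
  choose P hP0 hPc hPd using hE
  choose F hF0 hF using fun N (h : N₂ ≤ N) => exists_coeff.{u} (P N h) (hP0 N h)
  refine ⟨max (max N₁ N₂) 2586, fun N => if h : N₂ ≤ N then genP N * F N h else 1, ?_, ?_⟩
  · intro N hN
    have h2 : N₂ ≤ N := (le_max_right _ _).trans ((le_max_left _ _).trans hN)
    change (if h : N₂ ≤ N then genP N * F N h else 1) ≠ 0
    rw [dif_pos h2]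
    exact mul_ne_zero (genP_ne_zero N) (hF0 N h2)
  intro k M V _ _ _ _ _ _ _ _ _ F₀ W N r y L x A m b z hN hW hWc hΦ hind hred hval hA i j
  have hN1 : N₁ ≤ N := (le_max_left _ _).trans ((le_max_left _ _).trans hN)
  have hN2 : N₂ ≤ N := (le_max_right _ _).trans ((le_max_left _ _).trans hN)
  have hN3 : 2586 ≤ N := (le_max_right _ _).trans hN
  change aeval (fun p : Fin N × Fin 3 => L p.1 p.2)
    (if h : N₂ ≤ N then genP N * F N h else 1) ≠ 0 at hΦ
  rw [dif_pos hN2, map_mul] at hΦ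
  have hL : GenPos L := genPos_of L (left_ne_zero_of_mul hΦ)
  have hspec : spec L (P N hN2) ≠ 0 := hF N hN2 k L (right_ne_zero_of_mul hΦ)
  have hlin := lin_ne_of_norel hind
  have hLy : ∀ i, lin (L i) y ≠ 0 := fun i => hlin _ (genPos_ne hL (by omega) i)
  obtain ⟨Tk, C, hTk, hKs⟩ := hK k M V W N y L hN1 hW hWc (genPos_ind hL) hred hLy
  obtain ⟨Tl, hTl0, hTl⟩ := hLNS k N L hL
  obtain ⟨d, A₀, hA₀h, hA₀, hA₀e⟩ := hEXC k N _ 60 L (P N hN2) (hPc N hN2).inv hspec
  have hAy : aeval y A₀ ≠ 0 := fun h => hA₀ (hind d A₀ hA₀h h)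
  have hyne : ∀ j, y j ≠ 0 := by
    intro j
    rw [← lin_single (k := k) y j]
    apply hlin
    intro h
    have := congrFun h j
    simp at this
  choose hbg hrel hx hb hz using hval
  have hx0 : x ≠ 0 := by
    obtain ⟨j, _⟩ := hA ⟨0, by omega⟩ 0
    exact hx j
  choose Tb hTb hbT hbB hbR using hbg
  set U : Set M := (Set.range (fun j => algebraMap V M (y j)) ∪
    Set.range (fun j => (algebraMap V M (y j))⁻¹) ∪ {x, x⁻¹} ∪ Set.range z ∪
    Set.range (fun j => (z j)⁻¹) ∪ Set.range (fun j => (b j)⁻¹) ∪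
    Set.range (fun i => (algebraMap V M (lin (L i) y))⁻¹) ∪
    Set.range (fun t : Tl => (algebraMap V M (lin (t : Fin 3 → k) y))⁻¹) ∪
    {(algebraMap V M (aeval y A₀))⁻¹} ∪
    {algebraMap V M (y i) / algebraMap V M (y j)}) with hU
  have hUf : U.Finite := by
    refine Set.Finite.union ?_ (Set.finite_singleton _)
    refine Set.Finite.union ?_ (Set.finite_singleton _)
    refine Set.Finite.union ?_ (Set.finite_range _)
    refine Set.Finite.union ?_ (Set.finite_range _)
    refine Set.Finite.union ?_ (Set.finite_range _)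
    refine Set.Finite.union ?_ (Set.finite_range _)
    refine Set.Finite.union ?_ (Set.finite_range _)
    refine Set.Finite.union ?_ (Set.toFinite _)
    exact (Set.finite_range _).union (Set.finite_range _)
  set T0 : Set M := (⋃ i, Tb i) ∪ (Tk ∪ U) with hT0
  have hT0f : T0.Finite := (Set.finite_iUnion (fun i => hTb i)).union (hTk.union hUf)
  have hsub : ∀ i, Tb i ⊆ T0 := fun i => (Set.subset_iUnion Tb i).trans Set.subset_union_left
  have hTks : Tk ⊆ T0 := fun _ h => Or.inr (Or.inl h)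
  have hT0' : ∀ a : M, a ∈ U → a ∈ T0 := fun a h => Or.inr (Or.inr h)
  have hyT : ∀ j, algebraMap V M (y j) ∈ T0 := fun j => hT0' _ (by simp [hU])
  have hyiT : ∀ j, (algebraMap V M (y j))⁻¹ ∈ T0 := fun j => hT0' _ (by simp [hU])
  have hxT : x ∈ T0 := hT0' _ (by simp [hU])
  have hxiT : x⁻¹ ∈ T0 := hT0' _ (by simp [hU])
  have hzT : ∀ j, z j ∈ T0 := fun j => hT0' _ (by simp [hU])
  have hziT : ∀ j, (z j)⁻¹ ∈ T0 := fun j => hT0' _ (by simp [hU])
  have hbiT : ∀ j, (b j)⁻¹ ∈ T0 := fun j => hT0' _ (by simp [hU])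
  have hliT : ∀ i, (algebraMap V M (lin (L i) y))⁻¹ ∈ T0 := fun i => hT0' _ (by simp [hU])
  have htiT : ∀ t ∈ Tl, (algebraMap V M (lin t y))⁻¹ ∈ T0 := fun t ht => by
    refine hT0' _ (Or.inl (Or.inl (Or.inr ⟨⟨t, ht⟩, rfl⟩)))
  have hAiT : (algebraMap V M (aeval y A₀))⁻¹ ∈ T0 := hT0' _ (Or.inl (Or.inr rfl))
  have hqT : algebraMap V M (y i) / algebraMap V M (y j) ∈ T0 := hT0' _ (Or.inr rfl)
  clear_value U T0
  clear hT0 hU
  have hinj : Function.Injective (algebraMap V M) := (algebraMap V M).injective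
  have hinj0 : ∀ a : V, a ≠ 0 → algebraMap V M a ≠ 0 := fun a ha h => ha (by
    rwa [map_eq_zero] at h)
  -- the common part of both estimates
  have key : ∀ (E : Type u) [Field E] [Algebra k E] [FF k E] (D : Derivation ℤ E E)
      (cp : Place k E → ℕ) (sc : Finset (Place k E)),
      (∀ c : k, D (algebraMap k E c) = 0) → (∀ w : E, D w = 0 → ∃ c : k, algebraMap k E c = w) →
      (∀ v : Place k E, DGe v D (-(cp v : ℤ))) → (∀ v ∉ sc, cp v = 0) →
      ∀ (S : Subalgebra k M), T0 ⊆ (S : Set M) → ∀ φ : S →ₐ[k] E,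
      (ht k (ev φ (algebraMap V M (y i) / algebraMap V M (y j))) : ℤ) ≤
        60 * ((1000 + 3 * C) * ∑ v ∈ sc, (cp v : ℤ) + 2000 * ∑ j, 2 * (ht k (ev φ (b j)) : ℤ)) := by
    intro E _ _ _ D cp sc hDk hDc hcp hsc S hTS φ
    have hyS : ∀ j, algebraMap V M (y j) ∈ S := fun j => hTS (hyT j)
    have h1 := fun c => lin_ev (n := 2) φ y hyS c
    have hbS : ∀ i, b i ∈ S := fun i => hTS (hsub i (hbT i))
    have hzS : ∀ i, z i ∈ S := fun i => hTS (hzT i)
    have hxS : x ∈ S := hTS hxT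
    have hny : ∀ j, ev φ (algebraMap V M (y j)) ≠ 0 := fun j =>
      ev_ne_zero φ (hyS j) (hTS (hyiT j)) (hinj0 _ (hyne j))
    have hLyE : ∀ i, lin (L i) (fun j => ev φ (algebraMap V M (y j))) ≠ 0 := by
      intro i
      rw [(h1 (L i)).2]
      exact ev_ne_zero φ (h1 (L i)).1 (hTS (hliT i)) (hinj0 _ (hLy i))
    have hTyE : ∀ t ∈ Tl, lin t (fun j => ev φ (algebraMap V M (y j))) ≠ 0 := by
      intro t ht
      rw [(h1 t).2]
      exact ev_ne_zero φ (h1 t).1 (hTS (htiT t ht)) (hinj0 _ (hlin t (hTl0 t ht)))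
    have hAyS : algebraMap V M (aeval y A₀) ∈ S := by
      have h2 : algebraMap V M (aeval y A₀) = aeval (fun j => algebraMap V M (y j)) A₀ := by
        change (IsScalarTower.toAlgHom k V M) (aeval y A₀) = _
        rw [← AlgHom.comp_apply, comp_aeval]
        rfl
      rw [h2]
      have h3 : Set.range (fun j => algebraMap V M (y j)) ⊆ (S : Set M) := by
        rintro _ ⟨j, rfl⟩
        exact hyS j
      refine Algebra.adjoin_le h3 ?_
      rw [Algebra.adjoin_range_eq_range_aeval]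
      exact ⟨A₀, rfl⟩
    have hAyE : aeval (fun j => ev φ (algebraMap V M (y j))) A₀ ≠ 0 := by
      rw [← ev_aeval φ y hyS A₀]
      exact ev_ne_zero φ hAyS (hTS hAiT) (hinj0 _ hAy)
    obtain ⟨α, s₀, hα, htan⟩ := hKs S (hTks.trans hTS) E φ D cp sc hDk hDc hcp hsc
    have hrelE : ∀ j, ∏ i, (lin (L i) (fun j => ev φ (algebraMap V M (y j))) / ev φ x) ^ A i j =
        ev φ (b j) * ev φ (z j) ^ m j := by
      intro j
      have h2 := congrArg (ev φ) (hrel j)
      have h3 : ∀ i, algebraMap V M (lin (L i) y) / x ∈ S ∧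
          (algebraMap V M (lin (L i) y) / x)⁻¹ ∈ S ∧
          ev φ (algebraMap V M (lin (L i) y) / x) =
            lin (L i) (fun j => ev φ (algebraMap V M (y j))) / ev φ x := by
        intro i
        refine ⟨?_, ?_, ?_⟩
        · rw [div_eq_mul_inv]; exact mul_mem (h1 _).1 (hTS hxiT)
        · rw [inv_div, div_eq_mul_inv]; exact mul_mem hxS (hTS (hliT i))
        · rw [div_eq_mul_inv, ev_mul φ (h1 _).1 (hTS hxiT), ev_inv' φ hxS (hTS hxiT), (h1 _).2,
            div_eq_mul_inv]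
      rw [(ev_prod' φ Finset.univ _ (fun i _ => (ev_zpow' φ (h3 i).1 (h3 i).2.1 (A i j)).1)).2,
        ev_mul φ (hbS j) (pow_mem (hzS j) _), ev_pow φ (hzS j)] at h2
      rw [← h2]
      refine Finset.prod_congr rfl fun i _ => ?_
      rw [(ev_zpow' φ (h3 i).1 (h3 i).2.1 (A i j)).2, (h3 i).2.2]
    have hfin := key2 hCLT hCLA hVAN hVER hHGT hLIN hWRO hN3 hL (hPc N hN2) (hPd N hN2) hA₀e hTl
      hDk hDc hcp hsc hα hLyE hTyE hAyE (ev_ne_zero φ hxS (hTS hxiT) hx0)
      (fun j => ev_ne_zero φ (hbS j) (hTS (hbiT j)) (hb j))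
      (fun j => ev_ne_zero φ (hzS j) (hTS (hziT j)) (hz j)) hrelE hA htan i j (hny i) (hny j)
    have hdiv : ev φ (algebraMap V M (y i) / algebraMap V M (y j)) =
        ev φ (algebraMap V M (y i)) / ev φ (algebraMap V M (y j)) := by
      rw [div_eq_mul_inv, ev_mul φ (hyS i) (hTS (hyiT j)), ev_inv' φ (hyS j) (hTS (hyiT j)),
        div_eq_mul_inv]
    rw [hdiv]
    exact hfin
  refine ⟨T0, hT0f, hqT, ?_, ?_⟩
  · intro E _ _ _ ψ
    have hch : CharZero E := charZero_of_injective_algebraMap (algebraMap k E).injective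
    obtain ⟨t, htr⟩ := FF.exists_transcendental (L := k) (E := E)
    obtain ⟨δ, hδ⟩ := exists_deriv k E htr
    let D : Derivation ℤ E E := δ.restrictScalars ℤ
    have hDk : ∀ c : k, D (algebraMap k E c) = 0 := fun c => δ.map_algebraMap c
    have hPL : PresL k D := fun c => ⟨0, by rw [hDk, map_zero]⟩
    have hDt : D t ≠ 0 := by
      change δ t ≠ 0
      rw [hδ]; exact one_ne_zero
    have hconst : ∀ w, D w = 0 → ∃ c : k, algebraMap k E c = w := by
      intro w hw
      apply not_transcendental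
      intro hwt
      have hal := FF.isAlgebraic hwt
      exact hDt (deriv_zero_of_isAlgebraic_adjoin (AlgHom.id k E) D hDk hw (hal.isAlgebraic t))
    obtain ⟨cp, sc, hsc, hcp⟩ := bounded_poles (L := k) D hPL
    choose Bd hBd using fun i => hbB i E ψ
    refine ⟨(60 * ((1000 + 3 * C) * ∑ v ∈ sc, (cp v : ℤ) + 2000 * ∑ j, 2 * (Bd j : ℤ))).toNat,
      fun S hTS φ hψ => ?_⟩
    have h1 := key E D cp sc hDk hconst hcp hsc S hTS φ
    have h2 : ∑ i, 2 * (ht k (ev φ (b i)) : ℤ) ≤ ∑ i, 2 * (Bd i : ℤ) := by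
      apply Finset.sum_le_sum
      intro i _
      have := hBd i S ((hsub i).trans hTS) φ (fun t ht => hψ t (hsub i ht))
      omega
    have h3 : 60 * ((1000 + 3 * (C : ℤ)) * ∑ v ∈ sc, (cp v : ℤ) +
        2000 * ∑ j, 2 * (ht k (ev φ (b j)) : ℤ)) ≤
        60 * ((1000 + 3 * C) * ∑ v ∈ sc, (cp v : ℤ) + 2000 * ∑ j, 2 * (Bd j : ℤ)) := by
      linarith
    omega
  · intro E _ _ z' hz' htop S hTS φ hF
    obtain ⟨hFF, D, hDk, hDc, hDg⟩ := hD k E z' hz' htop
    have h1 := key E D (fun _ => 0) ∅ hDk hDc (fun v => by simpa using hDg v) (fun _ _ => rfl) S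
      hTS φ
    have h2 : ∀ i, ht k (ev φ (b i)) = 0 := by
      intro i
      obtain ⟨c, hc⟩ := hbR i E z' hz' htop S ((hsub i).trans hTS) φ
        (fun t ht ht0 => hF t (hsub i ht) ht0)
      rw [hc, ht_const]
    simp only [h2] at h1
    simp only [mul_zero, Nat.cast_zero, Finset.sum_const_zero, add_zero] at h1
    obtain ⟨c, hc⟩ := ht_eq_zero_iff (k := k)
      (w := ev φ (algebraMap V M (y i) / algebraMap V M (y j))) (by omega)
    exact ⟨c, hc⟩

end Pool.Agent.DP
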