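import Pool.Agent.Helper50_DP.Defs
import Pool.Agent.Helper11_PGL.StmtK

/-!
# Squad DP: statements

Text: `/team-store/PAPER_DP.md`.
-/

universe u v w

open MvPolynomial PGH PGL

namespace Pool.Agent.DP

/-! ## Part A: closure and words -/

/-- CLT: the classes are preserved by the infinitesimal linear action on lines and jets -/
def CltStmt : Prop := ∀ (N ν e m : ℕ) (c c' : Fin 3) (P : Pol N), Cls.{u} ν e m P →
  Cls.{u} ν e m (tE c c' P)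

/-- CLA: the third power of a form times the derivative in its coefficients -/
def ClaStmt : Prop := ∀ (N ν e m : ℕ) (i : Fin N) (c : Fin 3) (P : Pol N), Cls.{u} ν e m P →
  Cls.{u} ν (e + 3) m (ell i ^ 3 * dA i c P)

/-- VAN: all derivatives of order at most `q` in the jets vanish -/
def VanStmt : Prop := ∀ (N : ℕ) (Ω : Type u) [Field Ω] (ev : Pol N →ₐ[ℤ] Ω)
  (G : ℕ → Set (Pol N)), (∀ q, G (q + 1) ⊆ G q) → (∀ P ∈ G 0, ev P = 0) →
  (∀ q c c' P, P ∈ G q → tE c c' P ∈ G q) →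
  (∀ q i c P, P ∈ G (q + 1) → ell i ^ 3 * dA i c P ∈ G q) → (∀ i, ev (ell i) ≠ 0) →
  (Matrix.of fun r c : Fin 3 => ev (X (Sum.inr (r, c)))).det ≠ 0 →
  ∀ q, ∀ P ∈ G q, ∀ l : List (Fin 3 × Fin 3), l.length ≤ q →
    ev (l.foldr (fun p Q => dX p.1 p.2 Q) P) = 0

/-- VER: vanishing in all vertical directions -/
def VerStmt : Prop := ∀ (N d : ℕ) (P : Pol N), VDeg d P → ∀ (Ω : Type u) [Field Ω] [CharZero Ω]
  (a : Fin N → Fin 3 → Ω) (X : Fin 3 → Fin 3 → Ω),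
  (∀ l : List (Fin 3 × Fin 3), l.length ≤ d →
    evP a X (l.foldr (fun p Q => dX p.1 p.2 Q) P) = 0) →
  ∀ p q : Fin 3 → Ω, evP a ![X 0, p, q] P = 0

/-- the differential polynomial of the lines `L` -/
noncomputable def spec {N : ℕ} {k : Type*} [Field k] (L : Fin N → Fin 3 → k) :
    Pol N →ₐ[ℤ] MvPolynomial (Fin 3 × Fin 3) k :=
  aeval (Sum.elim (fun p => C (L p.1 p.2)) (fun p => X p))

/-- EXC: the exceptional curve -/
def ExcStmt : Prop := ∀ (k : Type u) [Field k] [CharZero k] (N e m : ℕ) (L : Fin N → Fin 3 → k)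
  (P : Pol N), Inv.{u} e m P → spec L P ≠ 0 → ∃ (d : ℕ) (A : MvPolynomial (Fin 3) k),
  A.IsHomogeneous d ∧ A ≠ 0 ∧ ∀ (E : Type u) [Field E] [Algebra k E] (y : Fin 3 → E),
    (∀ p q : Fin 3 → E, evP (fun i c => algebraMap k E (L i c)) ![y, p, q] P = 0) →
    aeval y A = 0

/-! ## Part B: heights -/

/-- VAL: the local inequality -/
def ValStmt : Prop := ∀ (k E : Type u) [Field k] [IsAlgClosed k] [CharZero k] [Field E]
  [Algebra k E] [FF k E] (N ν e m : ℕ) (L : Fin N → Fin 3 → k) (P : Pol N)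
  (y : Fin 3 → E) (D : Derivation ℤ E E) (v : Place k E) (α : ℤ) (cp : ℕ), Cls.{u} ν e m P →
  GenPos L → 3 ≤ N → (∀ c : k, D (algebraMap k E c) = 0) → DGe v D (-(cp : ℤ)) →
  (∀ j, v.Ge α (y j)) →
  v.Ge (e * α - m * cp) (evD L D y P) ∧
    ∀ i j : Fin N, i ≠ j → lin (L i) y ≠ 0 → lin (L j) y ≠ 0 →
      v.ord (lin (L i) y) = α + 1 → v.ord (lin (L j) y) = α + 1 →
      v.Ge (e * α - m * cp + ν) (evD L D y P)

/-- the local orders: `α v` is the minimum of the orders of the `y j`, zero outside `s₀` -/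
structure LocMin {k E : Type*} [Field k] [Field E] [Algebra k E] {n : ℕ} (y : Fin (n + 1) → E)
    (α : Place k E → ℤ) (s₀ : Finset (Place k E)) : Prop where
  ge : ∀ (v : Place k E) j, v.Ge (α v) (y j)
  exact : ∀ v : Place k E, ∃ j, ¬ v.Ge (α v + 1) (y j)
  supp : ∀ v ∉ s₀, α v = 0

/-- NODC: counting the nodes.  `S` bounds the tangencies, at the places outside `sb` it does not
happen that exactly one of the forms vanishes, and of order one. -/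
def NodcStmt : Prop := ∀ (k E : Type u) [Field k] [IsAlgClosed k] [CharZero k] [Field E]
  [Algebra k E] [FF k E] (N : ℕ) (L : Fin N → Fin 3 → k) (y : Fin 3 → E)
  (α : Place k E → ℤ) (s₀ sb : Finset (Place k E)), GenPos L → 3 ≤ N →
  LocMin y α s₀ → (∀ i, lin (L i) y ≠ 0) →
  (∀ v ∉ sb, ∀ i, v.ord (lin (L i) y) = α v + 1 → ∃ j, j ≠ i ∧ α v < v.ord (lin (L j) y)) →
  ∃ (s₁ : Finset (Place k E)) (sn : Finset (Place k E)), s₀ ⊆ s₁ ∧ sn ⊆ s₁ ∧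
    (∀ v ∈ sn, ∃ i j : Fin N, i ≠ j ∧ v.ord (lin (L i) y) = α v + 1 ∧
      v.ord (lin (L j) y) = α v + 1) ∧
    (∀ v ∉ s₁, ∀ i, v.ord (lin (L i) y) = α v) ∧
    ∀ s, s₁ ⊆ s → (N : ℤ) * (-∑ v ∈ s, α v) ≤
      2 * (sn.card : ℤ) + 3 * ∑ v ∈ s, ∑ i, max 0 (v.ord (lin (L i) y) - α v - 1) +
        2 * (sb.card : ℤ)

/-- HGT: the height inequality for a family of differential polynomials which does not vanish -/
def HgtStmt : Prop := ∀ (k E : Type u) [Field k] [IsAlgClosed k] [CharZero k] [Field E]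
  [Algebra k E] [FF k E] (N e m C : ℕ) (L : Fin N → Fin 3 → k) (P : Pol N)
  (y : Fin 3 → E) (D : Derivation ℤ E E) (cp : Place k E → ℕ) (α : Place k E → ℤ)
  (s₀ sc sb : Finset (Place k E)), Cls.{u} (2 * m) e m P → GenPos L → 3 ≤ N →
  (∀ c : k, D (algebraMap k E c) = 0) → (∀ v : Place k E, DGe v D (-(cp v : ℤ))) →
  (∀ v ∉ sc, cp v = 0) → LocMin y α s₀ → (∀ i, lin (L i) y ≠ 0) →
  (∀ v ∉ sb, ∀ i, v.ord (lin (L i) y) = α v + 1 → ∃ j, j ≠ i ∧ α v < v.ord (lin (L j) y)) →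
  (∀ s : Finset (Place k E), s₀ ⊆ s → sc ⊆ s →
    1000 * ∑ v ∈ s, ∑ i, max 0 (v.ord (lin (L i) y) - α v - 1) ≤
      (N : ℤ) * (-∑ v ∈ s, α v) + C * ∑ v ∈ sc, (cp v : ℤ)) →
  evD L D y P ≠ 0 →
  (1000 * ((m : ℤ) * N - e) - 3 * m * N) * (-∑ v ∈ s₀, α v) ≤
    m * ((1000 + 3 * C) * ∑ v ∈ sc, (cp v : ℤ) + 2000 * sb.card)

/-- LIN: the height inequality for a curve in a line which contains at most one node -/
def LinStmt : Prop := ∀ (k E : Type u) [Field k] [IsAlgClosed k] [CharZero k] [Field E]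
  [Algebra k E] [FF k E] (N C : ℕ) (L : Fin N → Fin 3 → k) (y : Fin 3 → E) (M : Fin 3 → k)
  (cp : Place k E → ℕ) (α : Place k E → ℤ) (s₀ sc sb : Finset (Place k E)), GenPos L → 3 ≤ N →
  LocMin y α s₀ → (∀ i, lin (L i) y ≠ 0) → M ≠ 0 → lin M y = 0 →
  (∀ i₁ j₁ i₂ j₂ : Fin N, i₁ < j₁ → i₂ < j₂ → det3 M (L i₁) (L j₁) = 0 →
    det3 M (L i₂) (L j₂) = 0 → i₁ = i₂ ∧ j₁ = j₂) →
  (∀ v ∉ sb, ∀ i, v.ord (lin (L i) y) = α v + 1 → ∃ j, j ≠ i ∧ α v < v.ord (lin (L j) y)) →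
  (∀ s : Finset (Place k E), s₀ ⊆ s → sc ⊆ s →
    1000 * ∑ v ∈ s, ∑ i, max 0 (v.ord (lin (L i) y) - α v - 1) ≤
      (N : ℤ) * (-∑ v ∈ s, α v) + C * ∑ v ∈ sc, (cp v : ℤ)) →
  (1000 * ((N : ℤ) - 2) - 2 * N) * (-∑ v ∈ s₀, α v) ≤
    2 * C * ∑ v ∈ sc, (cp v : ℤ) + 2000 * sb.card

/-- LNS: only finitely many lines contain two nodes, and a line contains a node means a linear
condition; here: a finite set of nonzero forms which contains a multiple of every form `M` whose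
zero line contains two nodes and which is not a multiple of some `L i` -/
def LnsStmt : Prop := ∀ (k : Type u) [Field k] (N : ℕ) (L : Fin N → Fin 3 → k), GenPos L →
  ∃ T : Finset (Fin 3 → k), (∀ t ∈ T, t ≠ 0) ∧ ∀ M : Fin 3 → k, M ≠ 0 →
    (∀ t ∈ T, ∀ c : k, M ≠ c • t) → (∀ i, ∀ c : k, M ≠ c • L i) →
    ∀ i₁ j₁ i₂ j₂ : Fin N, i₁ < j₁ → i₂ < j₂ → det3 M (L i₁) (L j₁) = 0 →
      det3 M (L i₂) (L j₂) = 0 → i₁ = i₂ ∧ j₁ = j₂

/-- WRO: if the Wronskian vanishes, the coordinates are linearly dependent over the constants -/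
def WroStmt : Prop := ∀ (k E : Type u) [Field k] [Field E] [CharZero k] [Algebra k E]
  (y : Fin 3 → E) (D : Derivation ℤ E E), (∀ c : k, D (algebraMap k E c) = 0) →
  (∀ w : E, D w = 0 → ∃ c : k, algebraMap k E c = w) →
  (Matrix.of ![y, fun c => D (y c), fun c => D (D (y c))]).det = 0 →
  ∃ M : Fin 3 → k, M ≠ 0 ∧ lin M y = 0

/-- KALL: the inequality of level one for all members (squad of helper87, AC++, inequality (1)) -/
def KallStmt : Prop := ∀ n K : ℕ, ∃ N₁ : ℕ, ∀ (k M V : Type u) [Field k] [Field M] [Algebra k M]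
  [IsAlgClosed k] [CharZero k] [Field V] [Algebra k V] [Algebra V M] [IsScalarTower k V M]
  (W : Set (AddValuation V (WithTop ℤ))) (N : ℕ) (y : Fin (n + 1) → V)
  (L : Fin N → Fin (n + 1) → k), N₁ ≤ N →
  (∀ w ∈ W, ∀ c : k, c ≠ 0 → w (algebraMap k V c) = 0) →
  (∀ x : V, (∀ w ∈ W, 0 ≤ w x) → ∃ c : k, algebraMap k V c = x) →
  (∀ s : Finset (Fin N), s.card = n + 1 → LinearIndependent k (fun i : s => L i)) →
  (∀ w ∈ W, ∀ i j, w (lin (L i) y) ≤ 1 + w (y j)) → (∀ i, lin (L i) y ≠ 0) →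
  ∃ (T : Set M) (C : ℕ), T.Finite ∧ ∀ S : Subalgebra k M, T ⊆ (S : Set M) →
    ∀ (E : Type u) [Field E] [Algebra k E] [FF k E] (φ : S →ₐ[k] E) (D : Derivation ℤ E E)
      (cp : Place k E → ℕ) (sc : Finset (Place k E)),
    (∀ c : k, D (algebraMap k E c) = 0) → (∀ w : E, D w = 0 → ∃ c : k, algebraMap k E c = w) →
    (∀ v : Place k E, DGe v D (-(cp v : ℤ))) → (∀ v ∉ sc, cp v = 0) →
    ∃ (α : Place k E → ℤ) (s₀ : Finset (Place k E)),
      LocMin (fun j => ev φ (algebraMap V M (y j))) α s₀ ∧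
      ∀ s : Finset (Place k E), s₀ ⊆ s → sc ⊆ s →
        K * ∑ v ∈ s, ∑ i, max 0
          (v.ord (lin (L i) (fun j => ev φ (algebraMap V M (y j)))) - α v - 1) ≤
          (N : ℤ) * (-∑ v ∈ s, α v) + C * ∑ v ∈ sc, (cp v : ℤ)

/-- DPG: the data of a net step give good elements -/
def DpgStmt : Prop := ∃ (N₀ : ℕ) (Φ : ∀ N : ℕ, MvPolynomial (Fin N × Fin 3) ℤ),
  (∀ N, N₀ ≤ N → Φ N ≠ 0) ∧
  ∀ (k M V : Type u) [Field k] [Field M] [Algebra k M] [IsAlgClosed k]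
    [CharZero k] [Field V] [Algebra k V] [Algebra V M] [IsScalarTower k V M] (F₀ : Set M)
    (W : Set (AddValuation V (WithTop ℤ))) (N r : ℕ) (y : Fin 3 → V)
    (L : Fin N → Fin 3 → k) (x : M) (A : Fin N → Fin r → ℤ) (m : Fin r → ℕ) (b z : Fin r → M),
    N₀ ≤ N →
    (∀ w ∈ W, ∀ c : k, c ≠ 0 → w (algebraMap k V c) = 0) →
    (∀ x : V, (∀ w ∈ W, 0 ≤ w x) → ∃ c : k, algebraMap k V c = x) →
    aeval (fun p : Fin N × Fin 3 => L p.1 p.2) (Φ N) ≠ 0 →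
    (∀ (d : ℕ) (p : MvPolynomial (Fin 3) k), p.IsHomogeneous d → aeval y p = 0 → p = 0) →
    (∀ w ∈ W, ∀ i j, w (lin (L i) y) ≤ 1 + w (y j)) →
    (∀ j, GoodEl2 k F₀ (b j) ∧
      ∏ i, (algebraMap V M (lin (L i) y) / x) ^ A i j = b j * z j ^ m j ∧ x ≠ 0 ∧ b j ≠ 0 ∧
      z j ≠ 0) →
    (∀ i (s : ℤ), ∃ j, ¬ (m j : ℤ) ∣ A i j + s * ∑ i, A i j) →
    ∀ i j, GoodEl2 k F₀ (algebraMap V M (y i) / algebraMap V M (y j))

/-! ## Part C: existence -/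

/-- EXI: existence of a family with a large reserve -/
def ExiStmt : Prop := ∃ N₁ : ℕ, ∀ N, N₁ ≤ N → ∃ P : Pol N, P ≠ 0 ∧
  Cls.{u} 120 (60 * N - N / 4) 60 P ∧ VDeg 60 P

end Pool.Agent.DP
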