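import Pool.Agent.Helper50_DP.Main
import Pool.Agent.Helper50_DP.DpgMain
import Pool.Agent.Helper11_DP.Clt
import Pool.Agent.Helper31_DP.Cla
import Pool.Agent.Helper31_DP.Van
import Pool.Agent.Helper48_DP.Ver
import Pool.Agent.Helper76_DP.Exc
import Pool.Agent.Helper76_DP.Nodc
import Pool.Agent.Helper76_DP.Wro
import Pool.Agent.Helper94_DP.Hgt
import Pool.Agent.Helper94_DP.Cnt
import Pool.Agent.Helper47_DP.Lin
import Pool.Agent.Helper47_DP.Hyp
import Pool.Agent.Helper65_DP.Lns
import Pool.Agent.Helper87_DP.Kall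
import Pool.Agent.Helper46_DP.Clr
import Pool.Agent.Helper15_DP.Exk
import Pool.Agent.Helper90_DP.Ldim
import Pool.Agent.Helper32_DP.Lbas
import Pool.Agent.Helper32_DP.Lind
import Pool.Agent.Helper32_DP.Lres
import Pool.Agent.Helper86_DP.Ndc
import Pool.Agent.Helper69_DP.Nda
import Pool.Agent.Helper69_DP.Pdg
import Pool.Agent.Helper19_DP.Pin
import Pool.Agent.Helper33_DP.Stp
import Pool.Agent.Helper13_PGL.Drat
import Pool.Agent.Helper40_PGL.GAlg
import Pool.Agent.Helper11_PGL.Asm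
import Pool.Agent.Helper51_DP.Val

/-!
# Squad DP: assembly
-/

universe u

open PGH PGL

namespace Pool.Agent.DP

theorem exi : ExiStmt.{u} :=
  H46.clr (H15.exk (H90.ldim H32.lbas (H32.lind H32.lres)) (H86.ndc H69.nda H69.pdg) H19.pin
    H69.pdg H94.cnt)

theorem step : StpStmt.{u} :=
  H33.stp (dpg H11.clt H31.cla H31.van H48.ver H76.exc (H94.hgt val H76.nodc) H47.lin_
    Pool.Agent.Helper65DP.lns H76.wro H87.kall exi H13.dRat)

end Pool.Agent.DP
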