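import Mathlib
import Pool.Agent.Helper11_PGL.StmtG

/-!
# Squad DP: covers of the plane branched over general lines, definitions

A family of differential polynomials is a polynomial `P` with integer coefficients in the
coefficients `a i c` of `N` lines and in the 2-jets `X 0, X 1, X 2` of a vector of length three.
-/

universe u v w

open MvPolynomial

namespace Pool.Agent.DP

/-- the variables: the coefficients of the lines, and the jets -/
abbrev Sig (N : ℕ) := (Fin N × Fin 3) ⊕ (Fin 3 × Fin 3)

/-- the ring of families of differential polynomials -/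
abbrev Pol (N : ℕ) := MvPolynomial (Sig N) ℤ

section defs

variable {N : ℕ} {R : Type*} [CommRing R]

/-- the value of the linear form with coefficients `b` at `x` -/
def lf (b x : Fin 3 → R) : R := ∑ c, b c * x c

/-- the determinant of three vectors -/
def det3 (x y z : Fin 3 → R) : R := (Matrix.of ![x, y, z]).det

/-- the values of the variables -/
def vals (a : Fin N → Fin 3 → R) (X : Fin 3 → Fin 3 → R) : Sig N → R :=
  Sum.elim (fun p => a p.1 p.2) (fun p => X p.1 p.2)

/-- evaluation at the coefficients `a` and the jets `X` -/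
noncomputable def evP (a : Fin N → Fin 3 → R) (X : Fin 3 → Fin 3 → R) : Pol N →ₐ[ℤ] R :=
  aeval (vals a X)

/-- change of the scaling of the vector and of the parameter of the jets -/
def chg (lam f s t w : R) (X : Fin 3 → Fin 3 → R) : Fin 3 → Fin 3 → R :=
  ![fun c => lam * X 0 c, fun c => lam * f * X 1 c + s * X 0 c,
    fun c => lam * f ^ 2 * X 2 c + t * X 1 c + w * X 0 c]

end defs

/-- `P` is homogeneous of degree `e` and of weight `m` -/
def Inv.{u₁} {N : ℕ} (e m : ℕ) (P : Pol N) : Prop :=
  ∀ (R : Type u₁) [CommRing R] (a : Fin N → Fin 3 → R) (X : Fin 3 → Fin 3 → R)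
    (lam f s t w : R), evP a (chg lam f s t w X) P = lam ^ e * f ^ m * evP a X P

/-- `P` vanishes of order `ν` at the nodes: if the jets of the `j`-th form are the jets of `η`
times the `i`-th form, then the value is divisible by the `ν`-th power of the `i`-th form -/
def Nod.{u₁} {N : ℕ} (ν : ℕ) (P : Pol N) : Prop :=
  ∀ i j l : Fin N, i < j → l ≠ i → l ≠ j → ∃ M : ℕ, ∀ (R : Type u₁) [CommRing R]
    (a : Fin N → Fin 3 → R) (X : Fin 3 → Fin 3 → R) (η₀ η₁ η₂ : R),
    lf (a j) (X 0) = η₀ * lf (a i) (X 0) →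
    lf (a j) (X 1) = η₁ * lf (a i) (X 0) + η₀ * lf (a i) (X 1) →
    lf (a j) (X 2) = η₂ * lf (a i) (X 0) + 2 * η₁ * lf (a i) (X 1) + η₀ * lf (a i) (X 2) →
    lf (a i) (X 0) ^ ν ∣ det3 (a i) (a j) (a l) ^ M * evP a X P

/-- the class of families of degree `e`, weight `m` and order `ν` at the nodes -/
structure Cls.{u₁} {N : ℕ} (ν e m : ℕ) (P : Pol N) : Prop where
  inv : Inv.{u₁} e m P
  nod : Nod.{u₁} ν P

/-- the degree in the derivatives is at most `d` -/
def VDeg {N : ℕ} (d : ℕ) (P : Pol N) : Prop :=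
  ∀ s ∈ P.support, ∑ c : Fin 3, (s (Sum.inr (1, c)) + s (Sum.inr (2, c))) ≤ d

section operators

variable {N : ℕ}

/-- derivative in the coefficient `a i c` -/
noncomputable def dA (i : Fin N) (c : Fin 3) : Derivation ℤ (Pol N) (Pol N) :=
  pderiv (Sum.inl (i, c))

/-- derivative in the jet variable `X r c` -/
noncomputable def dX (r c : Fin 3) : Derivation ℤ (Pol N) (Pol N) := pderiv (Sum.inr (r, c))

/-- the matrix unit `(c, c')` acting on the jets: `δ x_c = x_c'` -/
noncomputable def xE (c c' : Fin 3) : Derivation ℤ (Pol N) (Pol N) :=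
  ∑ r : Fin 3, (X (Sum.inr (r, c')) : Pol N) • dX r c

/-- the matrix unit `(c, c')` acting on the coefficients: `δ a_c' = a_c` -/
noncomputable def aE (c c' : Fin 3) : Derivation ℤ (Pol N) (Pol N) :=
  ∑ i : Fin N, (X (Sum.inl (i, c)) : Pol N) • dA i c'

/-- the infinitesimal action which preserves the values of the forms -/
noncomputable def tE (c c' : Fin 3) : Derivation ℤ (Pol N) (Pol N) := xE c c' - aE c c'

/-- the value of the `i`-th form -/
noncomputable def ell (i : Fin N) : Pol N :=
  ∑ c, X (Sum.inl (i, c)) * X (Sum.inr (0, c))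

end operators

/-- evaluation in the field `E` over `k`, the jets are those of `y` for the derivation `D` -/
noncomputable def evD {N : ℕ} {k E : Type*} [Field k] [Field E] [Algebra k E]
    (L : Fin N → Fin 3 → k) (D : Derivation ℤ E E) (y : Fin 3 → E) : Pol N →ₐ[ℤ] E :=
  evP (fun i c => algebraMap k E (L i c)) ![y, fun c => D (y c), fun c => D (D (y c))]

/-- the lines are in general position -/
def GenPos {N : ℕ} {k : Type*} [Field k] (L : Fin N → Fin 3 → k) : Prop :=
  ∀ i j l : Fin N, i ≠ j → l ≠ i → l ≠ j → det3 (L i) (L j) (L l) ≠ 0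

/-- A net step from the subfield `F` to the subfield `F'` of `M`, relative to the field of
constants `K`.  As in `LinSysStep`, `V` is a subfield of `M` which contains `K`, with a set `W` of
valuations with values in `ℤ ∪ {∞}`, trivial on `K`, such that an element of `V` at which all of
them are nonnegative is in `K`; `y 0, y 1, y 2` are elements of `V` which satisfy no homogeneous
algebraic relation over `K`, `L 0, …, L (N - 1)` are linear forms with coefficients in `K` at which
the polynomial `Φ N` does not vanish, and which define reduced members of the net; the products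
`∏ i, (L i y / u) ^ A i j` are of the form `b j * z j ^ m j` with `b j` in `F`; for every single
`i` and every integer `s` some `m j` does not divide `A i j + s * ∑ i, A i j` (the cover is
ramified over the `i`-th line); and `F'` contains `F` and is algebraic over the field generated by
`F` and the ratios `y i / y j`. -/
structure NetStep {M : Type*} [Field M] (N₀ : ℕ)
    (Φ : ∀ N : ℕ, MvPolynomial (Fin N × Fin 3) ℤ) (K F F' : Subfield M) : Prop where
  le : F ≤ F'
  step : ∃ (V : Subfield M) (W : Set (AddValuation V (WithTop ℤ))) (N r : ℕ)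
    (y : Fin 3 → V) (L : Fin N → Fin 3 → V) (x : M) (A : Fin N → Fin r → ℤ) (m : Fin r → ℕ)
    (b z : Fin r → M),
    N₀ ≤ N ∧ K ≤ V ∧ (∀ w ∈ W, ∀ c : V, (c : M) ∈ K → c ≠ 0 → w c = 0) ∧
    (∀ x : V, (∀ w ∈ W, 0 ≤ w x) → (x : M) ∈ K) ∧
    (∀ i j, (L i j : M) ∈ K) ∧ aeval (fun p : Fin N × Fin 3 => L p.1 p.2) (Φ N) ≠ 0 ∧
    (∀ (d : ℕ) (p : MvPolynomial (Fin 3) V), p.IsHomogeneous d → (∀ s, ((p.coeff s : V) : M) ∈ K) →
      aeval y p = 0 → p = 0) ∧
    (∀ w ∈ W, ∀ i j, w (lf (L i) y) ≤ 1 + w (y j)) ∧
    (∀ j, b j ∈ F ∧ ∏ i, (((lf (L i) y : V) : M) / x) ^ A i j = b j * z j ^ m j ∧ x ≠ 0 ∧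
      b j ≠ 0 ∧ z j ≠ 0) ∧
    (∀ i (s : ℤ), ∃ j, ¬ (m j : ℤ) ∣ A i j + s * ∑ i, A i j) ∧
    ∀ a ∈ F', IsAlgebraic
      (Subfield.closure ((F : Set M) ∪ {a | ∃ i j, a = (y i : M) / (y j : M)})) a

end Pool.Agent.DP
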