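import Pool.Agent.Helper50_DP.Stmts

/-!
# Squad DP: the height inequality for curves
-/

universe u

open MvPolynomial PGH PGL

namespace Pool.Agent.DP

/-- the set of the families with the reserve `q` -/
def GSet.{u₁} (N q : ℕ) : Set (Pol N) :=
  {P | ∃ e : ℕ, Cls.{u₁} 120 e 60 P ∧ e + 3 * q ≤ 60 * N - N / 4 + 180}

theorem evD_X {N : ℕ} {k E : Type*} [Field k] [Field E] [Algebra k E]
    (L : Fin N → Fin 3 → k) (D : Derivation ℤ E E) (y : Fin 3 → E) (r c : Fin 3) :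
    evD L D y (X (Sum.inr (r, c))) =
      (![y, fun c => D (y c), fun c => D (D (y c))] : Fin 3 → Fin 3 → E) r c := by
  unfold evD evP
  rw [aeval_X]
  rfl

theorem evD_ell {N : ℕ} {k E : Type*} [Field k] [Field E] [Algebra k E]
    (L : Fin N → Fin 3 → k) (D : Derivation ℤ E E) (y : Fin 3 → E) (i : Fin N) :
    evD L D y (ell i) = lin (L i) y := by
  unfold ell lin
  rw [map_sum]
  refine Finset.sum_congr rfl fun c _ => ?_
  rw [map_mul, evD_X]
  unfold evD evP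
  rw [aeval_X]
  rfl

theorem key_curve (hCLT : CltStmt.{u}) (hCLA : ClaStmt.{u}) (hVAN : VanStmt.{u})
    (hVER : VerStmt.{u}) (hHGT : HgtStmt.{u}) (hLIN : LinStmt.{u}) (hWRO : WroStmt.{u})
    {k E : Type u} [Field k] [IsAlgClosed k] [CharZero k] [Field E] [Algebra k E] [FF k E]
    {N C : ℕ} (hN : 2586 ≤ N) {L : Fin N → Fin 3 → k} (hL : GenPos L) {P : Pol N}
    (hP : Cls.{u} 120 (60 * N - N / 4) 60 P) (hPd : VDeg 60 P)
    {y : Fin 3 → E} {D : Derivation ℤ E E} {cp : Place k E → ℕ} {α : Place k E → ℤ}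
    {s₀ sc sb : Finset (Place k E)} (hDk : ∀ c : k, D (algebraMap k E c) = 0)
    (hDc : ∀ w : E, D w = 0 → ∃ c : k, algebraMap k E c = w)
    (hcp : ∀ v : Place k E, DGe v D (-(cp v : ℤ))) (hsc : ∀ v ∉ sc, cp v = 0)
    (hα : LocMin y α s₀) (hLy : ∀ i, lin (L i) y ≠ 0)
    (hpat : ∀ v ∉ sb, ∀ i, v.ord (lin (L i) y) = α v + 1 →
      ∃ j, j ≠ i ∧ α v < v.ord (lin (L j) y))
    (htan : ∀ s : Finset (Place k E), s₀ ⊆ s → sc ⊆ s →
      1000 * ∑ v ∈ s, ∑ i, max 0 (v.ord (lin (L i) y) - α v - 1) ≤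
        (N : ℤ) * (-∑ v ∈ s, α v) + C * ∑ v ∈ sc, (cp v : ℤ))
    (hexc : ¬ ∀ p q : Fin 3 → E, evP (fun i c => algebraMap k E (L i c)) ![y, p, q] P = 0)
    (hlns : ∀ M : Fin 3 → k, M ≠ 0 → lin M y = 0 → ∀ i₁ j₁ i₂ j₂ : Fin N, i₁ < j₁ → i₂ < j₂ →
      det3 M (L i₁) (L j₁) = 0 → det3 M (L i₂) (L j₂) = 0 → i₁ = i₂ ∧ j₁ = j₂) :
    -∑ v ∈ s₀, α v ≤ 60 * ((1000 + 3 * C) * ∑ v ∈ sc, (cp v : ℤ) + 2000 * sb.card) := by
  have hch : CharZero E := charZero_of_injective_algebraMap (algebraMap k E).injective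
  have hG : (0 : ℤ) ≤ ∑ v ∈ sc, (cp v : ℤ) := Finset.sum_nonneg fun _ _ => by positivity
  have hCG : (0 : ℤ) ≤ C * ∑ v ∈ sc, (cp v : ℤ) := by positivity
  by_contra hlt
  push Not at hlt
  have hh : 0 ≤ -∑ v ∈ s₀, α v := by
    refine le_trans ?_ hlt.le
    positivity
  by_cases hW : (Matrix.of ![y, fun c => D (y c), fun c => D (D (y c))]).det = 0
  · obtain ⟨M, hM0, hM⟩ := hWRO k E y D hDk hDc hW
    have h1 := hLIN k E N C L y M cp α s₀ sc sb hL (by omega) hα hLy hM0 hM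
      (fun i₁ j₁ i₂ j₂ => hlns M hM0 hM i₁ j₁ i₂ j₂) hpat htan
    have h2 : (1 : ℤ) ≤ 1000 * ((N : ℤ) - 2) - 2 * N := by
      have : (2586 : ℤ) ≤ N := by exact_mod_cast hN
      linarith
    have h3 := le_mul_of_one_le_left hh h2
    nlinarith
  · apply hexc
    have hev0 : ∀ Q ∈ GSet.{u} N 0, evD L D y Q = 0 := by
      rintro Q ⟨e, hQ, he⟩
      by_contra hne
      have h1 := hHGT k E N e 60 C L Q y D cp α s₀ sc sb hQ hL (by omega) hDk hcp hsc hα hLy hpat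
        htan hne
      have h2 : (1 : ℤ) ≤ 1000 * (((60 : ℕ) : ℤ) * N - e) - 3 * ((60 : ℕ) : ℤ) * N := by
        have h4 : 4 * e ≤ 239 * N + 723 := by omega
        have h5 : (4 : ℤ) * e ≤ 239 * N + 723 := by exact_mod_cast h4
        have h6 : (2586 : ℤ) ≤ N := by exact_mod_cast hN
        push_cast
        linarith
      have h3 := le_mul_of_one_le_left hh h2
      push_cast at h1 h3
      linarith
    have hvan := hVAN N E (evD L D y) (GSet.{u} N)
      (by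
        rintro q Q ⟨e, hQ, he⟩
        exact ⟨e, hQ, by omega⟩)
      hev0
      (by
        rintro q c c' Q ⟨e, hQ, he⟩
        exact ⟨e, hCLT N 120 e 60 c c' Q hQ, he⟩)
      (by
        rintro q i c Q ⟨e, hQ, he⟩
        exact ⟨e + 3, hCLA N 120 e 60 i c Q hQ, by omega⟩)
      (fun i => by rw [evD_ell]; exact hLy i)
      (by
        intro h0
        apply hW
        rw [← h0]
        congr 1
        ext r c
        simp only [Matrix.of_apply, evD_X])
      60 P ⟨60 * N - N / 4, hP, le_refl _⟩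
    exact hVER N 60 P hPd E (fun i c => algebraMap k E (L i c))
      ![y, fun c => D (y c), fun c => D (D (y c))] hvan

end Pool.Agent.DP
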