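import Pool.Agent.Helper50_DP.Dpg

/-!
# Squad DP: the height inequality for curves, with the relations
-/

universe u

open MvPolynomial PGH PGL

namespace Pool.Agent.DP

/-- the pattern of a place where exactly one form vanishes -/
theorem pattern {k E : Type u} [Field k] [IsAlgClosed k] [CharZero k] [Field E] [Algebra k E]
    [FF k E] {N r : ℕ} {l : Fin N → E} {x : E} {A : Fin N → Fin r → ℤ} {m : Fin r → ℕ}
    {b z : Fin r → E} (hl : ∀ i, l i ≠ 0) (hx : x ≠ 0) (hb : ∀ j, b j ≠ 0) (hz : ∀ j, z j ≠ 0)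
    (hrel : ∀ j, ∏ i, (l i / x) ^ A i j = b j * z j ^ m j)
    (hA : ∀ i (s : ℤ), ∃ j, ¬ (m j : ℤ) ∣ A i j + s * ∑ i, A i j) (v : Place k E) (a : ℤ)
    (hge : ∀ i, a ≤ v.ord (l i)) (hv : ∀ j, v.ord (b j) = 0) (i : Fin N)
    (hi : v.ord (l i) = a + 1) : ∃ j, j ≠ i ∧ a < v.ord (l j) := by
  classical
  by_contra hcon
  push Not at hcon
  obtain ⟨j, hj⟩ := hA i (a - v.ord x)
  apply hj
  have h1 := congrArg v.ord (hrel j)
  rw [ord_prod' v Finset.univ _ (fun i _ => zpow_ne_zero _ (div_ne_zero (hl i) hx)),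
    v.ord_mul (hb j) (pow_ne_zero _ (hz j)), hv j, zero_add, v.ord_pow] at h1
  have h2 : ∀ i', v.ord ((l i' / x) ^ A i' j) =
      (a - v.ord x) * A i' j + if i' = i then A i j else 0 := by
    intro i'
    rw [v.ord_zpow, v.ord_div (hl i') hx]
    split_ifs with h
    · rw [h, hi]; ring
    · have h3 := hcon i' h
      have h4 := hge i'
      have h5 : v.ord (l i') = a := le_antisymm h3 h4
      rw [h5]; ring
  rw [Finset.sum_congr rfl (fun i' _ => h2 i'), Finset.sum_add_distrib, ← Finset.mul_sum,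
    Finset.sum_ite_eq' Finset.univ i (fun _ => A i j), if_pos (Finset.mem_univ _)] at h1
  exact ⟨v.ord (z j), by linarith⟩

theorem ge_lin {k E : Type u} [Field k] [IsAlgClosed k] [CharZero k] [Field E] [Algebra k E]
    [FF k E] {n : ℕ} (v : Place k E) {a : ℤ} {y : Fin (n + 1) → E} (c : Fin (n + 1) → k)
    (h : ∀ j, v.Ge a (y j)) : v.Ge a (lin c y) := by
  unfold lin
  refine Place.Ge.sum fun j _ => ?_
  exact (v.ge_const (c j)).mul' (h j) (by omega)

theorem key2 (hCLT : CltStmt.{u}) (hCLA : ClaStmt.{u}) (hVAN : VanStmt.{u})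
    (hVER : VerStmt.{u}) (hHGT : HgtStmt.{u}) (hLIN : LinStmt.{u}) (hWRO : WroStmt.{u})
    {k E : Type u} [Field k] [IsAlgClosed k] [CharZero k] [Field E] [Algebra k E] [FF k E]
    {N C : ℕ} (hN : 2586 ≤ N) {L : Fin N → Fin 3 → k} (hL : GenPos L) {P : Pol N}
    (hP : Cls.{u} 120 (60 * N - N / 4) 60 P) (hPd : VDeg 60 P) {A₀ : MvPolynomial (Fin 3) k}
    (hAe : ∀ (E : Type u) [Field E] [Algebra k E] (y : Fin 3 → E),
      (∀ p q : Fin 3 → E, evP (fun i c => algebraMap k E (L i c)) ![y, p, q] P = 0) →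
      aeval y A₀ = 0) {Tl : Finset (Fin 3 → k)}
    (hTl : ∀ M : Fin 3 → k, M ≠ 0 → (∀ t ∈ Tl, ∀ c : k, M ≠ c • t) →
      (∀ i, ∀ c : k, M ≠ c • L i) → ∀ i₁ j₁ i₂ j₂ : Fin N, i₁ < j₁ → i₂ < j₂ →
        det3 M (L i₁) (L j₁) = 0 → det3 M (L i₂) (L j₂) = 0 → i₁ = i₂ ∧ j₁ = j₂)
    {r : ℕ} {x : E} {A : Fin N → Fin r → ℤ} {m : Fin r → ℕ} {b z : Fin r → E}
    {y : Fin 3 → E} {D : Derivation ℤ E E} {cp : Place k E → ℕ} {α : Place k E → ℤ}
    {s₀ sc : Finset (Place k E)} (hDk : ∀ c : k, D (algebraMap k E c) = 0)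
    (hDc : ∀ w : E, D w = 0 → ∃ c : k, algebraMap k E c = w)
    (hcp : ∀ v : Place k E, DGe v D (-(cp v : ℤ))) (hsc : ∀ v ∉ sc, cp v = 0)
    (hα : LocMin y α s₀) (hLy : ∀ i, lin (L i) y ≠ 0) (hTy : ∀ t ∈ Tl, lin t y ≠ 0)
    (hAy : aeval y A₀ ≠ 0) (hx : x ≠ 0) (hb : ∀ j, b j ≠ 0) (hz : ∀ j, z j ≠ 0)
    (hrel : ∀ j, ∏ i, (lin (L i) y / x) ^ A i j = b j * z j ^ m j)
    (hA : ∀ i (s : ℤ), ∃ j, ¬ (m j : ℤ) ∣ A i j + s * ∑ i, A i j)
    (htan : ∀ s : Finset (Place k E), s₀ ⊆ s → sc ⊆ s →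
      1000 * ∑ v ∈ s, ∑ i, max 0 (v.ord (lin (L i) y) - α v - 1) ≤
        (N : ℤ) * (-∑ v ∈ s, α v) + C * ∑ v ∈ sc, (cp v : ℤ)) (i j : Fin 3) (hi : y i ≠ 0)
    (hj : y j ≠ 0) :
    (ht k (y i / y j) : ℤ) ≤ 60 * ((1000 + 3 * C) * ∑ v ∈ sc, (cp v : ℤ) +
      2000 * ∑ j, 2 * (ht k (b j) : ℤ)) := by
  classical
  set sb : Finset (Place k E) :=
    Finset.univ.biUnion (fun j => (finite_support (L := k) (b j)).toFinset) with hsb
  have hsb1 : ∀ v ∉ sb, ∀ j, v.ord (b j) = 0 := by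
    intro v hv j
    by_contra h
    exact hv (Finset.mem_biUnion.2 ⟨j, Finset.mem_univ _,
      (finite_support (L := k) (b j)).mem_toFinset.2 h⟩)
  have hsb2 : (sb.card : ℤ) ≤ ∑ j, 2 * (ht k (b j) : ℤ) := by
    have h1 : sb.card ≤ ∑ j, ((finite_support (L := k) (b j)).toFinset).card :=
      Finset.card_biUnion_le
    calc (sb.card : ℤ) ≤ ((∑ j, ((finite_support (L := k) (b j)).toFinset).card : ℕ) : ℤ) := by
          exact_mod_cast h1
      _ = ∑ j, (((finite_support (L := k) (b j)).toFinset.card : ℕ) : ℤ) := by push_cast; rfl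
      _ ≤ _ := Finset.sum_le_sum fun j _ => card_supp_le (b j)
  have h1 := key_curve hCLT hCLA hVAN hVER hHGT hLIN hWRO hN hL hP hPd (sb := sb) hDk hDc hcp hsc
    hα hLy
    (fun v hv i hi => pattern hLy hx hb hz hrel hA v (α v)
      (fun i => (v.ge_iff (hLy i)).1 (ge_lin v _ (hα.ge v))) (hsb1 v hv) i hi)
    htan (fun h => hAy (hAe E y h))
    (fun M hM0 hM => hTl M hM0
      (by
        rintro t ht c rfl
        have h2 : lin (c • t) y = algebraMap k E c * lin t y := by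
          unfold lin
          rw [Finset.mul_sum]
          exact Finset.sum_congr rfl fun l _ => by
            rw [Pi.smul_apply, smul_eq_mul, map_mul, mul_assoc]
        rw [h2] at hM
        rcases mul_eq_zero.1 hM with h3 | h3
        · rw [map_eq_zero] at h3
          exact hM0 (by rw [h3, zero_smul])
        · exact hTy t ht h3)
      (by
        rintro i c rfl
        have h2 : lin (c • L i) y = algebraMap k E c * lin (L i) y := by
          unfold lin
          rw [Finset.mul_sum]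
          exact Finset.sum_congr rfl fun l _ => by
            rw [Pi.smul_apply, smul_eq_mul, map_mul, mul_assoc]
        rw [h2] at hM
        rcases mul_eq_zero.1 hM with h3 | h3
        · rw [map_eq_zero] at h3
          exact hM0 (by rw [h3, zero_smul])
        · exact hLy i h3))
  refine (ht_div_le hα i j hi hj).trans (h1.trans ?_)
  have h3 : (0 : ℤ) ≤ 2000 := by norm_num
  have h4 := mul_le_mul_of_nonneg_left hsb2 h3
  linarith

end Pool.Agent.DP
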