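import Pool.Agent.Helper50_DP.StmtsC

/-!
# Squad DP: lemmas on logarithmic forms
-/

universe u

open MvPolynomial PGH PGL

namespace Pool.Agent.DP

variable {K : Type} [Field K] {N : ℕ}

section ev

variable {R : Type} [CommRing R] [Algebra K R]

theorem ev1_X0 (x₀ x₁ : Fin 3 → R) (c : Fin 3) :
    ev1 x₀ x₁ (X (0, c) : MvPolynomial (Fin 2 × Fin 3) K) = x₀ c := by
  simp [ev1]

theorem ev1_X1 (x₀ x₁ : Fin 3 → R) (c : Fin 3) :
    ev1 x₀ x₁ (X (1, c) : MvPolynomial (Fin 2 × Fin 3) K) = x₁ c := by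
  simp [ev1]

theorem ev1_lin0 (M : Fin 3 → K) (x₀ x₁ : Fin 3 → R) :
    ev1 x₀ x₁ (lin M (fun c => (X (0, c) : MvPolynomial (Fin 2 × Fin 3) K))) = lin M x₀ := by
  simp only [lin, map_sum, map_mul, AlgHom.commutes, ev1_X0]

theorem ev1_lin1 (M : Fin 3 → K) (x₀ x₁ : Fin 3 → R) :
    ev1 x₀ x₁ (lin M (fun c => (X (1, c) : MvPolynomial (Fin 2 × Fin 3) K))) = lin M x₁ := by
  simp only [lin, map_sum, map_mul, AlgHom.commutes, ev1_X1]

theorem lin_scale (M : Fin 3 → K) (lam : R) (x : Fin 3 → R) :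
    lin M (fun c => lam * x c) = lam * lin M x := by
  simp only [lin, Finset.mul_sum]
  exact Finset.sum_congr rfl fun c _ => by ring

theorem lin_comb (M : Fin 3 → K) (a b : R) (x y : Fin 3 → R) :
    lin M (fun c => a * x c + b * y c) = a * lin M x + b * lin M y := by
  simp only [lin, Finset.mul_sum, ← Finset.sum_add_distrib]
  exact Finset.sum_congr rfl fun c _ => by ring

end ev

variable {L : Fin N → Fin 3 → K} {S : Finset (Fin N)}

theorem LogP_one : (1 : MvPolynomial (Fin 2 × Fin 3) K) ∈ LogP L S 0 0 := by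
  refine ⟨?_, ?_⟩
  · intro R _ _ x₀ x₁ lam f s
    simp
  · intro i _ R _ _ x₀ x₁ g _
    simp

theorem LogP_mul {p c p' c' : ℕ} {B B' : MvPolynomial (Fin 2 × Fin 3) K} (hB : B ∈ LogP L S p c)
    (hB' : B' ∈ LogP L S p' c') : B * B' ∈ LogP L S (p + p') (c + c') := by
  refine ⟨?_, ?_⟩
  · intro R _ _ x₀ x₁ lam f s
    rw [map_mul, map_mul, hB.1, hB'.1]
    ring
  · intro i hi R _ _ x₀ x₁ g hg
    rw [map_mul, pow_add]
    exact mul_dvd_mul (hB.2 i hi R x₀ x₁ g hg) (hB'.2 i hi R x₀ x₁ g hg)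

theorem LogP_pow {p c : ℕ} {B : MvPolynomial (Fin 2 × Fin 3) K} (hB : B ∈ LogP L S p c) (n : ℕ) :
    B ^ n ∈ LogP L S (n * p) (n * c) := by
  induction n with
  | zero => simpa using LogP_one
  | succ n ih =>
    rw [pow_succ, Nat.succ_mul, Nat.succ_mul]
    exact LogP_mul ih hB

theorem LogP_congr {p c p' c' : ℕ} {B : MvPolynomial (Fin 2 × Fin 3) K} (hB : B ∈ LogP L S p c)
    (hp : p = p') (hc : c = c') : B ∈ LogP L S p' c' := by
  subst hp; subst hc; exact hB

/-- linear forms -/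
theorem LogP_lin (M : Fin 3 → K) :
    lin M (fun c => (X (0, c) : MvPolynomial (Fin 2 × Fin 3) K)) ∈ LogP L S 0 1 := by
  refine ⟨?_, ?_⟩
  · intro R _ _ x₀ x₁ lam f s
    rw [ev1_lin0, ev1_lin0, lin_scale]
    simp
  · intro i _ R _ _ x₀ x₁ g _
    simp

/-- the numerator of the logarithmic form `dlog (ell a / ell b)` -/
noncomputable def qf (L : Fin N → Fin 3 → K) (a b : Fin N) : MvPolynomial (Fin 2 × Fin 3) K :=
  lin (L a) (fun c => X (1, c)) * lin (L b) (fun c => X (0, c)) -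
    lin (L a) (fun c => X (0, c)) * lin (L b) (fun c => X (1, c))

/-- the product of the forms of a set of lines -/
noncomputable def prf (L : Fin N → Fin 3 → K) (S : Finset (Fin N)) :
    MvPolynomial (Fin 2 × Fin 3) K := ∏ i ∈ S, lin (L i) (fun c => X (0, c))

theorem ev1_qf {R : Type} [CommRing R] [Algebra K R] (a b : Fin N) (x₀ x₁ : Fin 3 → R) :
    ev1 x₀ x₁ (qf L a b) = lin (L a) x₁ * lin (L b) x₀ - lin (L a) x₀ * lin (L b) x₁ := by
  rw [qf, map_sub, map_mul, map_mul, ev1_lin0, ev1_lin0, ev1_lin1, ev1_lin1]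

theorem ev1_prf {R : Type} [CommRing R] [Algebra K R] (T : Finset (Fin N)) (x₀ x₁ : Fin 3 → R) :
    ev1 x₀ x₁ (prf L T) = ∏ i ∈ T, lin (L i) x₀ := by
  rw [prf, map_prod]
  exact Finset.prod_congr rfl fun i _ => ev1_lin0 _ _ _

/-- the logarithmic form `dlog (ell a / ell b)`, with poles along the lines of `S` -/
theorem LogP_qf {a b : Fin N} (ha : a ∈ S) (hb : b ∈ S) (hab : a ≠ b) :
    qf L a b * prf L ((S.erase a).erase b) ∈ LogP L S 1 0 := by
  have hcard : ((S.erase a).erase b).card + 2 = S.card := by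
    have h1 : (S.erase a).card + 1 = S.card := Finset.card_erase_add_one ha
    have h2 : ((S.erase a).erase b).card + 1 = (S.erase a).card :=
      Finset.card_erase_add_one (Finset.mem_erase.2 ⟨hab.symm, hb⟩)
    omega
  refine ⟨?_, ?_⟩
  · intro R _ _ x₀ x₁ lam f s
    rw [map_mul, map_mul, ev1_qf, ev1_qf, ev1_prf, ev1_prf, lin_scale, lin_scale, lin_comb,
      lin_comb]
    have : ∏ i ∈ (S.erase a).erase b, lin (L i) (fun c => lam * x₀ c) =
        lam ^ ((S.erase a).erase b).card * ∏ i ∈ (S.erase a).erase b, lin (L i) x₀ := by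
      rw [← Finset.prod_const, ← Finset.prod_mul_distrib]
      exact Finset.prod_congr rfl fun i _ => lin_scale _ _ _
    rw [this, ← hcard, mul_one, add_zero, pow_add]
    ring
  · intro i hi R _ _ x₀ x₁ g hg
    rw [map_mul, ev1_qf, ev1_prf, pow_one]
    by_cases h1 : i = a
    · subst h1
      rw [hg]
      exact Dvd.dvd.mul_right ⟨g * lin (L b) x₀ - lin (L b) x₁, by ring⟩ _
    · by_cases h2 : i = b
      · subst h2
        rw [hg]
        exact Dvd.dvd.mul_right ⟨lin (L a) x₁ - lin (L a) x₀ * g, by ring⟩ _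
      · exact Dvd.dvd.mul_left (Finset.dvd_prod_of_mem _
          (Finset.mem_erase.2 ⟨h2, Finset.mem_erase.2 ⟨h1, hi⟩⟩)) _

/-- inclusion -/
theorem LogP_insert {i : Fin N} (hi : i ∉ S) {p c : ℕ} {B : MvPolynomial (Fin 2 × Fin 3) K}
    (hB : B ∈ LogP L S p c) :
    lin (L i) (fun c => X (0, c)) ^ p * B ∈ LogP L (insert i S) p c := by
  refine ⟨?_, ?_⟩
  · intro R _ _ x₀ x₁ lam f s
    rw [map_mul, map_mul, map_pow, map_pow, hB.1, ev1_lin0, ev1_lin0, lin_scale,
      Finset.card_insert_of_notMem hi]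
    ring
  · intro j hj R _ _ x₀ x₁ g hg
    rw [map_mul, map_pow, ev1_lin0]
    rcases Finset.mem_insert.1 hj with rfl | hj
    · exact dvd_mul_right _ _
    · exact Dvd.dvd.mul_left (hB.2 j hj R x₀ x₁ g hg) _

/-- homogeneity in the derivatives -/
theorem LogP_weight {p c : ℕ} {B : MvPolynomial (Fin 2 × Fin 3) K} (hB : B ∈ LogP L S p c)
    {R : Type} [CommRing R] [Algebra K R] (x₀ x₁ : Fin 3 → R) (f : R) :
    ev1 x₀ (fun i => f * x₁ i) B = f ^ p * ev1 x₀ x₁ B := by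
  have := hB.1 R x₀ x₁ 1 f 0
  simpa using this

/-- translation of the derivatives -/
theorem LogP_shift {p c : ℕ} {B : MvPolynomial (Fin 2 × Fin 3) K} (hB : B ∈ LogP L S p c)
    {R : Type} [CommRing R] [Algebra K R] (x₀ x₁ : Fin 3 → R) (s : R) :
    ev1 x₀ (fun i => x₁ i + s * x₀ i) B = ev1 x₀ x₁ B := by
  have := hB.1 R x₀ x₁ 1 1 s
  simpa using this

end Pool.Agent.DP
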