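import Pool.Agent.Helper50_DP.StmtsD
import Pool.Agent.Helper97_PGH.TowerDefs
import Pool.Agent.Helper97_PGH.SchemeRel

/-!
# Squad DP: the main theorem
-/

open CategoryTheory AlgebraicGeometry PGH PGL

universe u

namespace Pool.Agent.DP

theorem good2_of_tower {k M : Type u} [Field k] [Field M] [Algebra k M] {N₀ : ℕ}
    {Φ : ∀ N : ℕ, MvPolynomial (Fin N × Fin 3) ℤ}
    (h1 : ∀ (F₀ : Set M) (F F' : Subfield M), NetStep N₀ Φ (algebraMap k M).fieldRange F F' →
      (∀ a ∈ F, GoodEl2 k F₀ a) → ∀ a ∈ F', GoodEl2 k F₀ a) {F₀ : Set M} {F F' : Subfield M}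
    (h : Relation.ReflTransGen (NetStep N₀ Φ (algebraMap k M).fieldRange) F F')
    (hF : ∀ a ∈ F, GoodEl2 k F₀ a) : ∀ a ∈ F', GoodEl2 k F₀ a := by
  induction h with
  | refl => exact hF
  | tail _ h ih => exact h1 F₀ _ _ h ih

/-- the main theorem, from the statements of the squad -/
theorem main_of (h1 : StpStmt.{u}) (h2 : Fin2BStmt.{u}) (h3 : GAlgStmt.{u}) (h4 : HypStmt.{u}) :
    ∃ (N₀ : ℕ) (Φ : ∀ N : ℕ, MvPolynomial (Fin N × Fin 3) ℤ), (∀ N, N₀ ≤ N → Φ N ≠ 0) ∧
      ∀ {k : Type u} [Field k] [IsAlgClosed k] [CharZero k] {X : Scheme.{u}}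
      (f : X ⟶ Spec (.of k)) [IsIntegral X] [IsSeparated f] [LocallyOfFiniteType f]
      [QuasiCompact f],
      (Relation.ReflTransGen (NetStep N₀ Φ (constants k f).fieldRange)
        (constants k f).fieldRange ⊤ → IsPGH k f) ∧
      (∀ {Y : Scheme.{u}} (q : Y ⟶ Spec (.of k)) [IsIntegral Y] (g : X ⟶ Y) [IsDominant g],
        g ≫ q = f → IsPGH k q →
        Relation.ReflTransGen (NetStep N₀ Φ (constants k f).fieldRange)
          (pullbackField g).fieldRange ⊤ → IsPGH k f) ∧
      ∀ (N r : ℕ) (x : Fin 2 → X.functionField) (L : Fin N → Fin 3 → k)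
        (t : X.functionField) (A : Fin N → Fin r → ℤ) (m : Fin r → ℕ)
        (z : Fin r → X.functionField), N₀ ≤ N →
        (∀ p : MvPolynomial (Fin 2) k, MvPolynomial.eval₂ (constants k f) x p = 0 → p = 0) →
        (∀ i, L i ≠ 0) →
        MvPolynomial.aeval (fun p : Fin N × Fin 3 => L p.1 p.2) (Φ N) ≠ 0 → t ≠ 0 →
        (∀ j, z j ≠ 0 ∧ ∏ i, ((constants k f (L i 0) + constants k f (L i 1) * x 0 +
          constants k f (L i 2) * x 1) / t) ^ A i j = z j ^ m j) →
        (∀ i (s : ℤ), ∃ j, ¬ (m j : ℤ) ∣ A i j + s * ∑ i, A i j) →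
        (∀ a : X.functionField, IsAlgebraic
          (Subfield.closure (((constants k f).fieldRange : Set X.functionField) ∪ Set.range x))
            a) → IsPGH k f := by
  obtain ⟨N₀, Φ, hN₀, hΦ, hN₁⟩ := h1
  refine ⟨N₀, Φ, hΦ, ?_⟩
  intro k _ _ _ X f _ _ _ _
  let _ : Algebra k X.functionField := (constants k f).toAlgebra
  have key : Relation.ReflTransGen (NetStep N₀ Φ (constants k f).fieldRange)
      (constants k f).fieldRange ⊤ → IsPGH k f := by
    intro h
    have hgood : ∀ a : X.functionField, GoodEl2 k (∅ : Set X.functionField) a := fun a =>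
      good2_of_tower (k := k) (fun F₀ F F' hs => hN₁ k X.functionField F₀ F F' hs) h
        (by rintro _ ⟨c, rfl⟩; exact (h3 k X.functionField _).2.1 c) a trivial
    refine isPGH_of_fields k f X.functionField (RingEquiv.refl _) (fun c => rfl) ?_
    intro A hA
    obtain ⟨T, hT, hh⟩ := h2 k X.functionField _ hgood A hA
    refine ⟨T, hT, fun d hd hd0 hTR E _ _ _ P x => ?_⟩
    refine (hh d hd hd0 hTR E P x (fun _ => 0)).subset ?_
    intro φ hφ
    exact ⟨hφ, fun r hr => absurd hr.2 (Set.notMem_empty _)⟩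
  refine ⟨key, fun {Y} q _ g _ hgq hY h => ?_, ?_⟩
  · have hgood : ∀ a : X.functionField,
        GoodEl2 k (Set.range (fun b => RingEquiv.refl _ (pullbackField g b))) a := fun a =>
      good2_of_tower (k := k) (fun F₀ F F' hs => hN₁ k X.functionField F₀ F F' hs) h
        (by rintro _ ⟨b, rfl⟩; exact (h3 k X.functionField _).1 _ ⟨b, rfl⟩) a trivial
    exact isPGH_of_fields_rel k f q g hgq hY X.functionField (RingEquiv.refl _) (fun c => rfl)
      (h2 k X.functionField _ hgood)
  · intro N r x L t A m z hN hx hL hΦL ht hval hA halg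
    apply key
    apply Relation.ReflTransGen.single
    refine h4 N₀ Φ k X.functionField _ _ N r x L t A m (fun _ => 1) z le_top hN ?_ hL hΦL ht
      (fun j => ⟨one_mem _, one_ne_zero, (hval j).1, ?_⟩) hA (fun a _ => halg a)
    · rw [algebraicIndependent_iff]
      intro p hp
      exact hx p hp
    · rw [one_mul]
      exact (hval j).2

end Pool.Agent.DP
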