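import Pool.Agent.Helper50_DP.Stmts

/-!
# Squad DP: statements of part C (existence)

`K` is a field, `L` are `N` lines in general position.  Logarithmic symmetric forms of degree `p`
and twist `c` are written as polynomials `B (x, x')`, the form itself is `B` divided by the `p`-th
power of the product of the lines.
-/

universe u

open MvPolynomial PGH PGL

namespace Pool.Agent.DP

section defs

variable {K : Type} [Field K] {N : ℕ}

/-- homogeneity of a polynomial in the 2-jets -/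
def InvK (e m : ℕ) (Q : MvPolynomial (Fin 3 × Fin 3) K) : Prop :=
  ∀ (R : Type) [CommRing R] [Algebra K R] (X : Fin 3 → Fin 3 → R) (lam f s t w : R),
    aeval (fun p : Fin 3 × Fin 3 => chg lam f s t w X p.1 p.2) Q =
      lam ^ e * f ^ m * aeval (fun p : Fin 3 × Fin 3 => X p.1 p.2) Q

/-- order `ν` at the node of the lines `i` and `j` -/
def NodK (L : Fin N → Fin 3 → K) (i j : Fin N) (ν : ℕ) (Q : MvPolynomial (Fin 3 × Fin 3) K) :
    Prop :=
  ∀ (R : Type) [CommRing R] [Algebra K R] (X : Fin 3 → Fin 3 → R) (η₀ η₁ η₂ : R),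
    lin (L j) (X 0) = η₀ * lin (L i) (X 0) →
    lin (L j) (X 1) = η₁ * lin (L i) (X 0) + η₀ * lin (L i) (X 1) →
    lin (L j) (X 2) = η₂ * lin (L i) (X 0) + 2 * η₁ * lin (L i) (X 1) + η₀ * lin (L i) (X 2) →
    lin (L i) (X 0) ^ ν ∣ aeval (fun p : Fin 3 × Fin 3 => X p.1 p.2) Q

/-- evaluation of a polynomial in the 1-jets -/
noncomputable def ev1 {R : Type} [CommRing R] [Algebra K R] (x₀ x₁ : Fin 3 → R) :
    MvPolynomial (Fin 2 × Fin 3) K →ₐ[K] R :=
  aeval (fun p : Fin 2 × Fin 3 => (![x₀, x₁] : Fin 2 → Fin 3 → R) p.1 p.2)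

/-- logarithmic symmetric forms of degree `p` and twist `c` with poles along the lines of `S` -/
def LogP (L : Fin N → Fin 3 → K) (S : Finset (Fin N)) (p c : ℕ) :
    Submodule K (MvPolynomial (Fin 2 × Fin 3) K) where
  carrier := {B | (∀ (R : Type) [CommRing R] [Algebra K R] (x₀ x₁ : Fin 3 → R) (lam f s : R),
    ev1 (fun i => lam * x₀ i) (fun i => lam * f * x₁ i + s * x₀ i) B =
      lam ^ (S.card * p + c) * f ^ p * ev1 x₀ x₁ B) ∧
    ∀ i ∈ S, ∀ (R : Type) [CommRing R] [Algebra K R] (x₀ x₁ : Fin 3 → R) (g : R),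
      lin (L i) x₁ = g * lin (L i) x₀ → lin (L i) x₀ ^ p ∣ ev1 x₀ x₁ B}
  add_mem' := by
    rintro a b ⟨ha, ha'⟩ ⟨hb, hb'⟩
    refine ⟨?_, ?_⟩
    · intro R _ _ x₀ x₁ lam f s
      rw [map_add, map_add, ha, hb, mul_add]
    · intro i hi R _ _ x₀ x₁ g hg
      rw [map_add]
      exact dvd_add (ha' i hi R x₀ x₁ g hg) (hb' i hi R x₀ x₁ g hg)
  zero_mem' := by
    refine ⟨?_, ?_⟩
    · intro R _ _ x₀ x₁ lam f s
      rw [map_zero, map_zero, mul_zero]
    · intro i hi R _ _ x₀ x₁ g hg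
      rw [map_zero]
      exact dvd_zero _
  smul_mem' := by
    rintro t b ⟨hb, hb'⟩
    refine ⟨?_, ?_⟩
    · intro R _ _ x₀ x₁ lam f s
      rw [map_smul, map_smul, hb, mul_smul_comm]
    · intro i hi R _ _ x₀ x₁ g hg
      rw [map_smul]
      exact (hb' i hi R x₀ x₁ g hg).trans (by rw [Algebra.smul_def]; exact dvd_mul_left _ _)

/-- the number of conditions for each node -/
def cnd : ℕ := ∑ j ∈ Finset.range 21, ∑ p ∈ Finset.range (61 - 3 * j), (p + j) * (p + j + 1) / 2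

/-- the number of new forms for a new line, if there are `n + 2` old ones -/
def newf (n p c : ℕ) : ℕ :=
  ∑ s ∈ Finset.range p, ∑ u ∈ Finset.range (s + 1), ((p - (s + 1)) * n + (c - u) + 1)

/-- the number of logarithmic forms for `n + 3` lines -/
def DD (n p c : ℕ) : ℕ := (p + 1) * ((c + 1) * (c + 2) / 2) + ∑ i ∈ Finset.range n, newf (i + 1) p c

/-- the twists -/
def tw (N : ℕ) (t : Fin 20) : ℕ := ((t : ℕ) + 1) * (N - 3) - N / 4

/-- the differential polynomial attached to the forms `B t`, of degree `57 - 3 t`, `t < 20` -/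
noncomputable def Pof (L : Fin N → Fin 3 → K) (B : Fin 20 → MvPolynomial (Fin 2 × Fin 3) K) :
    MvPolynomial (Fin 3 × Fin 3) K :=
  ∑ t : Fin 20, (Matrix.of fun r c : Fin 3 => (X (r, c) : MvPolynomial (Fin 3 × Fin 3) K)).det ^
      ((t : ℕ) + 1) * (∏ i, lin (L i) (fun c => (X (0, c) : MvPolynomial (Fin 3 × Fin 3) K))) ^
        (2 * ((t : ℕ) + 1)) * ev1 (fun c => X (0, c)) (fun c => X (1, c)) (B t)

/-- restriction to the line spanned by `α` and `β` -/
noncomputable def rest (α β : Fin 3 → K) :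
    MvPolynomial (Fin 2 × Fin 3) K →ₐ[K] MvPolynomial (Fin 2 × Fin 2) K :=
  aeval fun p => C (α p.2) * X (p.1, 0) + C (β p.2) * X (p.1, 1)

end defs

/-- LRES: forms with independent restrictions to a further line -/
def LresStmt : Prop := ∀ (K : Type) [Field K] (N : ℕ) (L : Fin N → Fin 3 → K) (S : Finset (Fin N))
  (i : Fin N) (n q c : ℕ) (α β : Fin 3 → K), GenPos L → i ∉ S → S.card = n + 2 →
  LinearIndependent K ![α, β] → lin (L i) α = 0 → lin (L i) β = 0 →
  ∃ g : Fin (q * n + c + 1) → MvPolynomial (Fin 2 × Fin 3) K, (∀ t, g t ∈ LogP L S q c) ∧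
    LinearIndependent K fun t => rest α β (g t)

/-- LIND: adding one line -/
def LindStmt : Prop := ∀ (K : Type) [Field K] (N : ℕ) (L : Fin N → Fin 3 → K) (S : Finset (Fin N))
  (i : Fin N) (n p c d : ℕ) (f : Fin d → MvPolynomial (Fin 2 × Fin 3) K), GenPos L → i ∉ S →
  S.card = n + 2 → p ≤ c + 1 → (∀ t, f t ∈ LogP L S p c) → LinearIndependent K f →
  ∃ g : Fin (d + newf n p c) → MvPolynomial (Fin 2 × Fin 3) K,
    (∀ t, g t ∈ LogP L (insert i S) p c) ∧ LinearIndependent K g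

/-- LBAS: three lines -/
def LbasStmt : Prop := ∀ (K : Type) [Field K] (N : ℕ) (L : Fin N → Fin 3 → K) (S : Finset (Fin N))
  (p c : ℕ), GenPos L → S.card = 3 → ∃ g : Fin ((p + 1) * ((c + 1) * (c + 2) / 2)) →
    MvPolynomial (Fin 2 × Fin 3) K, (∀ t, g t ∈ LogP L S p c) ∧ LinearIndependent K g

/-- LDIM: lower bound for the number of logarithmic forms -/
def LdimStmt : Prop := ∀ (K : Type) [Field K] (n N : ℕ) (L : Fin N → Fin 3 → K) (p c : ℕ),
  GenPos L → N = n + 3 → p ≤ c + 1 →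
  ∃ g : Fin (DD n p c) → MvPolynomial (Fin 2 × Fin 3) K,
    (∀ t, g t ∈ LogP L Finset.univ p c) ∧ LinearIndependent K g

/-- the degree of the coefficients at a node -/
def E₀ (N : ℕ) : ℕ := 60 * N - 120 - N / 4

/-- the ring of the 2-jets at a node: the variables are `z, u, u', u'', η, η', η''` -/
abbrev Vr (K : Type) [Field K] := MvPolynomial (Fin 7) K

/-- `u' η'' - u'' η'` -/
noncomputable def wr (K : Type) [Field K] : Vr K := X 2 * X 6 - X 3 * X 5

/-- the jets at a node, `α`, `β`, `γ` is the dual basis of the two lines and a third one -/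
noncomputable def vjet {K : Type} [Field K] (α β γ : Fin 3 → K) : Fin 3 → Fin 3 → Vr K :=
  ![fun c => C (α c) * X 1 + C (β c) * (X 4 * X 1) + C (γ c) * X 0,
    fun c => C (α c) * X 2 + C (β c) * (X 5 * X 1 + X 4 * X 2),
    fun c => C (α c) * X 3 + C (β c) * (X 6 * X 1 + 2 * X 5 * X 2 + X 4 * X 3)]

/-- the elements which occur at a node -/
noncomputable def nel (K : Type) [Field K] (J a b r s w : ℕ) : Vr K :=
  X 1 ^ (60 + 2 * J + a) * X 4 ^ (2 * J + b) * wr K ^ J * X 5 ^ a * X 2 ^ b *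
    (X 1 ^ r * (X 4 * X 1) ^ s * X 0 ^ w)

/-- the space of the elements which occur at a node -/
noncomputable def NM (K : Type) [Field K] (N : ℕ) : Submodule K (Vr K) :=
  Submodule.span K {e | ∃ J a b r s w : ℕ, 3 * J + a + b = 60 ∧ r + s + w = E₀ N ∧
    e = nel K J a b r s w}

/-- NDA: the expansion of each term at a node -/
def NdaStmt : Prop := ∀ (K : Type) [Field K] (N : ℕ) (L : Fin N → Fin 3 → K) (i j l : Fin N)
  (α β γ : Fin 3 → K) (t : Fin 20) (B : MvPolynomial (Fin 2 × Fin 3) K), GenPos L → 100 ≤ N →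
  i < j → l ≠ i → l ≠ j → lin (L i) α = (1 : K) → lin (L i) β = (0 : K) → lin (L i) γ = (0 : K) →
  lin (L j) α = (0 : K) → lin (L j) β = (1 : K) → lin (L j) γ = (0 : K) →
  lin (L l) α = (0 : K) → lin (L l) β = (0 : K) → lin (L l) γ = (1 : K) →
  B ∈ LogP L Finset.univ (57 - 3 * (t : ℕ)) (tw N t) →
  (Matrix.of (vjet α β γ)).det ^ ((t : ℕ) + 1) *
    (∏ a, lin (L a) (vjet α β γ 0)) ^ (2 * ((t : ℕ) + 1)) *
      ev1 (vjet α β γ 0) (vjet α β γ 1) B ∈ NM K N

/-- NDC: the conditions at a node -/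
def NdcStmt : Prop := ∀ (K : Type) [Field K] (N : ℕ) (L : Fin N → Fin 3 → K) (i j : Fin N),
  GenPos L → 100 ≤ N → i < j →
  ∃ Λ : (Fin 20 → MvPolynomial (Fin 2 × Fin 3) K) →ₗ[K] (Fin cnd → K),
    ∀ B : Fin 20 → MvPolynomial (Fin 2 × Fin 3) K,
      (∀ t : Fin 20, B t ∈ LogP L Finset.univ (57 - 3 * (t : ℕ)) (tw N t)) → Λ B = 0 →
      NodK L i j 120 (Pof L B)

/-- PIN: the differential polynomial determines the forms -/
def PinStmt : Prop := ∀ (K : Type) [Field K] (N : ℕ) (L : Fin N → Fin 3 → K)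
  (B : Fin 20 → MvPolynomial (Fin 2 × Fin 3) K), GenPos L → 3 ≤ N → Pof L B = 0 → B = 0

/-- PDG: degree, weight and vertical degree of the differential polynomial -/
def PdgStmt : Prop := ∀ (K : Type) [Field K] (N : ℕ) (L : Fin N → Fin 3 → K)
  (B : Fin 20 → MvPolynomial (Fin 2 × Fin 3) K), 100 ≤ N →
  (∀ t : Fin 20, B t ∈ LogP L Finset.univ (57 - 3 * (t : ℕ)) (tw N t)) →
  InvK (60 * N - N / 4) 60 (Pof L B) ∧
    ∀ s ∈ (Pof L B).support, ∑ c : Fin 3, (s (1, c) + s (2, c)) ≤ 60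

/-- CNT: there are more forms than conditions -/
def CntStmt : Prop := ∃ n₀ : ℕ, ∀ n, n₀ ≤ n →
  (n + 3) * (n + 2) / 2 * cnd < ∑ t : Fin 20, DD n (57 - 3 * (t : ℕ)) (tw (n + 3) t)

/-- EXK: existence over a field -/
def ExkStmt : Prop := ∃ N₁ : ℕ, ∀ N, N₁ ≤ N → ∀ (K : Type) [Field K] (L : Fin N → Fin 3 → K),
  GenPos L → ∃ Q : MvPolynomial (Fin 3 × Fin 3) K, Q ≠ 0 ∧ InvK (60 * N - N / 4) 60 Q ∧
    (∀ i j, i < j → NodK L i j 120 Q) ∧ ∀ s ∈ Q.support, ∑ c : Fin 3, (s (1, c) + s (2, c)) ≤ 60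

/-- CLR: clearing the denominators -/
def ClrStmt : Prop := ExkStmt → ExiStmt.{u}

end Pool.Agent.DP
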